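import Pool.Agent.Lib.MP_4d246d_lc.Blind.Sign
import Pool.Agent.Lib.MP_4d246d_lc.Maj.SignCount

/-!
# The number of structures that come from linear programs
-/

namespace Pool.Agent.Simplex.Tableau

open MvPolynomial Pool.Agent.MP4d246d.Maj

section Three

variable {σ ι : Type*} [Fintype σ] [Fintype ι]

/-- **The number of sign patterns, zeros included.** -/
theorem card_sign3_le (p : ι → MvPolynomial σ ℝ) {d : ℕ} (hd : ∑ i, (p i).totalDegree ≤ d)
    (S : Finset (ι → SignType))
    (hS : ∀ s ∈ S, ∃ x : σ → ℝ, ∀ i, SignType.sign (eval x (p i)) = s i) :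
    S.card ≤ (4 * d + 1) ^ Fintype.card σ := by
  classical
  choose! x hx using hS
  -- a small number
  obtain ⟨δ, hδ, hδS⟩ : ∃ δ : ℝ, 0 < δ ∧ ∀ s ∈ S, ∀ i, eval (x s) (p i) ≠ 0 →
      δ < |eval (x s) (p i)| := by
    set Q : Finset ((ι → SignType) × ι) := (S ×ˢ Finset.univ).filter
      fun e => eval (x e.1) (p e.2) ≠ 0 with hQ
    rcases Q.eq_empty_or_nonempty with h | h
    · refine ⟨1, one_pos, fun s hs i hne => ?_⟩
      have : (s, i) ∈ Q := Finset.mem_filter.2
        ⟨Finset.mem_product.2 ⟨hs, Finset.mem_univ _⟩, hne⟩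
      rw [h] at this
      simp at this
    · obtain ⟨e, he, hmin⟩ := Finset.exists_min_image Q (fun e => |eval (x e.1) (p e.2)|) h
      have hpos : 0 < |eval (x e.1) (p e.2)| := abs_pos.2 (Finset.mem_filter.1 he).2
      refine ⟨|eval (x e.1) (p e.2)| / 2, by linarith, fun s hs i hne => ?_⟩
      have := hmin (s, i) (Finset.mem_filter.2 ⟨Finset.mem_product.2 ⟨hs, Finset.mem_univ _⟩, hne⟩)
      simp only at this
      linarith
  set p' : ι × Bool → MvPolynomial σ ℝ := fun e =>
    p e.1 + C (if e.2 then δ else -δ) with hp'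
  have hdeg : (∏ e, p' e).totalDegree ≤ 2 * d := by
    refine (totalDegree_finsetProd _ _).trans ?_
    rw [Fintype.sum_prod_type]
    calc ∑ i, ∑ b : Bool, (p' (i, b)).totalDegree ≤ ∑ i, 2 * (p i).totalDegree := by
          refine Finset.sum_le_sum fun i _ => ?_
          have : ∀ b : Bool, (p' (i, b)).totalDegree ≤ (p i).totalDegree := fun b => by
            refine (totalDegree_add _ _).trans ?_
            rw [totalDegree_C]
            simp
          rw [Fintype.sum_bool]
          have h1 := this true
          have h2 := this false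
          omega
      _ = 2 * ∑ i, (p i).totalDegree := by rw [Finset.mul_sum]
      _ ≤ 2 * d := Nat.mul_le_mul_left 2 hd
  let enc : (ι → SignType) → (ι × Bool → Bool) := fun s e =>
    if e.2 then decide (s e.1 ≠ -1) else decide (s e.1 = 1)
  have henc : Function.Injective enc := by
    intro s s' h
    funext i
    have h1 := congrFun h (i, true)
    have h2 := congrFun h (i, false)
    simp only [enc, if_true, Bool.false_eq_true, if_false] at h1 h2
    have h3 := decide_eq_decide.1 h1
    have h4 := decide_eq_decide.1 h2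
    rcases hs : s i with _ | _ | _ <;> rcases hs' : s' i with _ | _ | _ <;>
      simp_all
  have h := card_sign_le p' hdeg (S.image enc) (by
    intro t ht
    obtain ⟨s, hs, rfl⟩ := Finset.mem_image.1 ht
    refine ⟨x s, ?_⟩
    rintro ⟨i, b⟩
    have hsi := hx s hs i
    have hsm := hδS s hs i
    cases b
    · simp only [enc, hp', Bool.false_eq_true, if_false, map_add, eval_C]
      by_cases h1 : s i = 1
      · simp only [h1, decide_true, if_true]
        rw [h1, sign_eq_one_iff] at hsi
        have h2 := hsm hsi.ne'
        rw [abs_of_pos hsi] at h2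
        linarith
      · simp only [h1, decide_false, Bool.false_eq_true, if_false]
        have h3 : eval (x s) (p i) ≤ 0 := by
          by_contra hcon
          push Not at hcon
          exact h1 (by rw [← hsi]; exact sign_pos hcon)
        linarith
    · simp only [enc, hp', if_true, map_add, eval_C]
      by_cases h1 : s i = -1
      · simp only [h1, ne_eq, not_true_eq_false, decide_false, Bool.false_eq_true, if_false]
        rw [h1, sign_eq_neg_one_iff] at hsi
        have h2 := hsm hsi.ne
        rw [abs_of_neg hsi] at h2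
        linarith
      · simp only [ne_eq, h1, not_false_eq_true, decide_true, if_true]
        have h3 : 0 ≤ eval (x s) (p i) := by
          by_contra hcon
          push Not at hcon
          exact h1 (by rw [← hsi]; exact sign_neg hcon)
        linarith)
  rw [Finset.card_image_of_injective _ henc] at h
  refine h.trans (le_of_eq ?_)
  ring

end Three

namespace LP

variable {m n : ℕ}

/-- the coordinates of the data -/
abbrev Var (m n : ℕ) : Type := (Fin m × Fin n) ⊕ Fin m ⊕ Fin n

/-- the data as a point -/
def pt (P : LP m n) : Var m n → ℝ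
  | Sum.inl (i, j) => P.A i j
  | Sum.inr (Sum.inl i) => P.b i
  | Sum.inr (Sum.inr j) => P.c j

/-- the generic rows -/
noncomputable def Ag (i : Fin m) : Fin n → MvPolynomial (Var m n) ℝ := fun j => X (Sum.inl (i, j))

/-- the generic objective -/
noncomputable def cg (m n : ℕ) : Fin n → MvPolynomial (Var m n) ℝ := fun j => X (Sum.inr (Sum.inr j))

/-- the generic basis matrix -/
noncomputable def Bg (r : Fin n → Fin m) : Matrix (Fin n) (Fin n) (MvPolynomial (Var m n) ℝ) :=
  Matrix.of fun k => Ag (r k)

/-- the indices of the polynomials -/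
abbrev Idx (m n : ℕ) : Type := (Fin n → Fin m) × Option (Fin m ⊕ Fin n × Option (Fin m))

/-- the polynomials -/
noncomputable def pol : Idx m n → MvPolynomial (Var m n) ℝ
  | (r, none) => (Bg r).det
  | (r, some (Sum.inl l)) => X (Sum.inr (Sum.inl l)) * (Bg r).det -
      ∑ k, X (Sum.inr (Sum.inl (r k))) * ((Bg r).updateRow k (Ag l)).det
  | (r, some (Sum.inr (k, some l))) => ((Bg r).updateRow k (Ag l)).det
  | (r, some (Sum.inr (k, none))) => ((Bg r).updateRow k (cg m n)).det

theorem map_Bg (P : LP m n) (r : Fin n → Fin m) : (eval P.pt).mapMatrix (Bg r) = P.B r := by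
  ext k j
  simp [Bg, Ag, B, pt]

theorem eval_det (P : LP m n) (r : Fin n → Fin m) : eval P.pt (Bg r).det = P.D r := by
  rw [RingHom.map_det, map_Bg, D]

theorem eval_update (P : LP m n) (r : Fin n → Fin m) (k : Fin n)
    (u : Fin n → MvPolynomial (Var m n) ℝ) (v : Fin n → ℝ) (huv : ∀ j, eval P.pt (u j) = v j) :
    eval P.pt ((Bg r).updateRow k u).det = P.E r k v := by
  rw [RingHom.map_det, E]
  congr 1
  rw [← map_Bg, RingHom.mapMatrix_apply, RingHom.mapMatrix_apply, Matrix.map_updateRow]
  congr 1
  funext j
  exact huv j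

theorem eval_A (P : LP m n) (r : Fin n → Fin m) (k : Fin n) (l : Fin m) :
    eval P.pt ((Bg r).updateRow k (Ag l)).det = P.E r k (P.A l) :=
  P.eval_update r k _ _ fun j => by simp [Ag, pt]

theorem eval_c (P : LP m n) (r : Fin n → Fin m) (k : Fin n) :
    eval P.pt ((Bg r).updateRow k (cg m n)).det = P.E r k P.c :=
  P.eval_update r k _ _ fun j => by simp [cg, pt]

theorem same_of_signs {P P' : LP m n}
    (h : ∀ e, SignType.sign (eval P.pt (pol e)) = SignType.sign (eval P'.pt (pol e))) :
    Same P P' := by
  refine ⟨fun r => ?_, fun r l => ?_, fun r k l => ?_, fun r k => ?_⟩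
  · have := h (r, none)
    simpa only [pol, eval_det] using this
  · have := h (r, some (Sum.inl l))
    simp only [pol, map_sub, map_mul, map_sum, eval_det, eval_A, eval_X] at this
    exact this
  · have := h (r, some (Sum.inr (k, some l)))
    simpa only [pol, eval_A] using this
  · have := h (r, some (Sum.inr (k, none)))
    simpa only [pol, eval_c] using this

theorem totalDegree_det_le' (M : Matrix (Fin n) (Fin n) (MvPolynomial (Var m n) ℝ))
    (hM : ∀ i j, (M i j).totalDegree ≤ 1) : M.det.totalDegree ≤ n := by
  rw [Matrix.det_apply']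
  refine totalDegree_finsetSum_le fun τ _ => ?_
  refine (totalDegree_mul _ _).trans ?_
  have h1 : (((Equiv.Perm.sign τ : ℤ) : MvPolynomial (Var m n) ℝ)).totalDegree = 0 := by
    rw [← map_intCast (C : ℝ →+* MvPolynomial (Var m n) ℝ), totalDegree_C]
  rw [h1, zero_add]
  refine (totalDegree_finsetProd _ _).trans ?_
  refine (Finset.sum_le_card_nsmul _ _ 1 fun i _ => hM _ _).trans ?_
  simp

theorem totalDegree_update (r : Fin n → Fin m) (k : Fin n)
    (u : Fin n → MvPolynomial (Var m n) ℝ) (hu : ∀ j, (u j).totalDegree ≤ 1) :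
    ((Bg r).updateRow k u).det.totalDegree ≤ n := by
  refine totalDegree_det_le' _ fun i j => ?_
  by_cases hi : i = k
  · subst hi
    rw [Matrix.updateRow_self]
    exact hu j
  · rw [Matrix.updateRow_ne hi]
    simp [Bg, Ag, totalDegree_X]

theorem totalDegree_pol (e : Idx m n) : (pol e).totalDegree ≤ n + 1 := by
  have hB : ∀ r : Fin n → Fin m, (Bg r).det.totalDegree ≤ n := fun r =>
    totalDegree_det_le' _ fun i j => by simp [Bg, Ag, totalDegree_X]
  have hA : ∀ (r : Fin n → Fin m) k l, ((Bg r).updateRow k (Ag l)).det.totalDegree ≤ n :=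
    fun r k l => totalDegree_update r k _ fun j => by simp [Ag, totalDegree_X]
  have hc : ∀ (r : Fin n → Fin m) k, ((Bg r).updateRow k (cg m n)).det.totalDegree ≤ n :=
    fun r k => totalDegree_update r k _ fun j => by simp [cg, totalDegree_X]
  obtain ⟨r, e⟩ := e
  match e with
  | none => exact (hB r).trans (Nat.le_succ n)
  | some (Sum.inl l) =>
    simp only [pol]
    refine (totalDegree_sub _ _).trans (max_le ?_ ?_)
    · refine (totalDegree_mul _ _).trans ?_
      rw [totalDegree_X]
      have := hB r
      omega
    · refine totalDegree_finsetSum_le fun k _ => ?_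
      refine (totalDegree_mul _ _).trans ?_
      rw [totalDegree_X]
      have := hA r k l
      omega
  | some (Sum.inr (k, some l)) => exact (hA r k l).trans (Nat.le_succ n)
  | some (Sum.inr (k, none)) => exact (hc r k).trans (Nat.le_succ n)

open Classical in
/-- the structures that come from linear programs -/
noncomputable def fam (m n : ℕ) : Finset (Name m → Finset (Name m)) :=
  Finset.univ.filter fun o => ∃ P : LP m n, P.nview = o

theorem card_fam : (fam m n).card ≤
    (4 * (m ^ n * ((m + 1) * (n + 1)) * (n + 1)) + 1) ^ (m * n + (m + n)) := by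
  classical
  set S : Finset (Idx m n → SignType) := Finset.univ.filter fun s =>
    ∃ P : LP m n, ∀ e, SignType.sign (eval P.pt (pol e)) = s e with hS
  have h1 := card_sign3_le (pol (m := m) (n := n)) (d := m ^ n * ((m + 1) * (n + 1)) * (n + 1)) (by
      refine (Finset.sum_le_card_nsmul _ _ (n + 1) fun e _ => totalDegree_pol e).trans ?_
      rw [smul_eq_mul]
      refine Nat.mul_le_mul_right _ (le_of_eq ?_)
      rw [Finset.card_univ]
      simp only [Fintype.card_prod, Fintype.card_option, Fintype.card_sum, Fintype.card_fin,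
        Fintype.card_fun]
      ring) S (by
      intro s hs
      obtain ⟨P, hP⟩ := (Finset.mem_filter.1 hs).2
      exact ⟨P.pt, hP⟩)
  have h2 : (fam m n).card ≤ S.card := by
    have hch : ∀ o ∈ fam m n, ∃ P : LP m n, P.nview = o := fun o ho => (Finset.mem_filter.1 ho).2
    haveI : Nonempty (LP m n) := ⟨⟨0, 0, 0⟩⟩
    choose! P hP using hch
    refine Finset.card_le_card_of_injOn
      (fun o => fun e => SignType.sign (eval (P o).pt (pol e))) ?_ ?_
    · intro o _
      exact Finset.mem_coe.2 (Finset.mem_filter.2 ⟨Finset.mem_univ _, P o, fun e => rfl⟩)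
    · intro o ho o' ho' h
      rw [← hP o ho, ← hP o' ho']
      exact (same_of_signs fun e => congrFun h e).nview_eq
  refine h2.trans (h1.trans (le_of_eq ?_))
  congr 1
  simp [Fintype.card_sum, Fintype.card_prod]

end LP

end Pool.Agent.Simplex.Tableau
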