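import Pool.Agent.Lib.MP_4d246d_lc.CI.LPDefs

/-!
# Pivot rules that see only the names of the constraints

The name of a vertex is the set of the constraints that are tight there. A blind pivot rule sees,
at each visited vertex, its name and the names of the vertices to which the improving edges lead.
-/

namespace Pool.Agent.Simplex.Tableau

/-- The name of a vertex: the set of the constraints that are tight there. -/
abbrev Name (m : ℕ) : Type := Finset (Fin m)

/-- Everything seen so far, the latest vertex first: the names of the visited vertices, each with
the names of the other ends of its improving edges. -/
abbrev History (m : ℕ) : Type := List (Name m × Finset (Name m))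

/-- A deterministic pivot rule with unlimited memory that sees only names: an arbitrary function
that picks, from everything seen so far, the other end of one of the improving edges at the current
vertex. -/
structure BlindRule (m : ℕ) where
  /-- the name of the next vertex -/
  pick : History m → Name m
  /-- an improving edge leads to it, if there is an improving edge -/
  pick_mem : ∀ (v : Name m) (S : Finset (Name m)) (l : History m),
    S.Nonempty → pick ((v, S) :: l) ∈ S

namespace LP

variable {m n : ℕ} (P : LP m n)

open Classical in
/-- The name of `x`: the constraints that are tight at `x`. -/
noncomputable def tight (x : Fin n → ℝ) : Name m :=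
  Finset.univ.filter fun i => P.row i x = P.b i

open Classical in
/-- The names of the other ends of the improving edges at `x`. -/
noncomputable def view (x : Fin n → ℝ) : Finset (Name m) :=
  Finset.univ.filter fun T => ∃ y, P.Improving x y ∧ P.tight y = T

/-- What is seen on the path `x 0, …, x t`. -/
noncomputable def seen (x : ℕ → Fin n → ℝ) : ℕ → History m
  | 0 => [(P.tight (x 0), P.view (x 0))]
  | t + 1 => (P.tight (x (t + 1)), P.view (x (t + 1))) :: seen x t

/-- The simplex method with the rule `ρ` visits `x 0, …, x k`, and it does not stop before
`x k`. -/
structure Run (ρ : BlindRule m) (x : ℕ → Fin n → ℝ) (k : ℕ) : Prop where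
  /-- each step is a pivot -/
  pivot : ∀ t < k, P.Improving (x t) (x (t + 1))
  /-- each pivot is the one that the rule picks -/
  rule : ∀ t < k, P.tight (x (t + 1)) = ρ.pick (P.seen x t)
  /-- the method has not stopped before -/
  go : ∀ t < k, ¬ P.Final (x t)

end LP

end Pool.Agent.Simplex.Tableau
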