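import Pool.Agent.Lib.MP_4d246d_lc.Blind.Path

/-!
# From short walks in the majority structure to pivot rules
-/

namespace Pool.Agent.MP4d246d.Blind

section Win

variable {V : Type*}

/-- the members of `F` with the property `p` -/
noncomputable def fil {α : Type*} (F : Finset α) (p : α → Prop) : Finset α := by
  classical
  exact F.filter p

theorem mem_fil {α : Type*} {F : Finset α} {p : α → Prop} {a : α} :
    a ∈ fil F p ↔ a ∈ F ∧ p a := by
  classical
  exact Finset.mem_filter

theorem fil_subset {α : Type*} (F : Finset α) (p : α → Prop) : fil F p ⊆ F :=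
  fun _ h => (mem_fil.1 h).1

/-- In the game where the candidates are `F` and the current name is `v`, the player can reach an
end within `N` steps, whatever the candidate is. -/
def Win : ℕ → Finset (V → Finset V) → V → Prop
  | 0, F, v => ∀ o ∈ F, o v = ∅
  | N + 1, F, v => (∀ o ∈ F, o v = ∅) ∨
      ∃ u, (∀ o ∈ F, u ∈ o v) ∧ ∀ S, Win N (fil F fun o => o u = S) u

theorem Win.of_base {F : Finset (V → Finset V)} (N : ℕ) {v : V} (h : ∀ o ∈ F, o v = ∅) :
    Win N F v := by
  cases N with
  | zero => exact h
  | succ N => exact Or.inl h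

theorem Win.mono : ∀ {N N' : ℕ} {F : Finset (V → Finset V)} {v : V}, N ≤ N' → Win N F v →
    Win N' F v := by
  intro N
  induction N with
  | zero => intro N' F v _ h; exact Win.of_base N' h
  | succ N ih =>
    intro N' F v hN h
    obtain ⟨N'', rfl⟩ : ∃ N'', N' = N'' + 1 := ⟨N' - 1, by omega⟩
    rcases h with h | ⟨i, hi, h⟩
    · exact Or.inl h
    · exact Or.inr ⟨i, hi, fun S => ih (by omega) (h S)⟩

/-- one step of a rule, with its history -/
noncomputable def nstep (pick : List (V × Finset V) → V) (o : V → Finset V) :
    List (V × Finset V) → List (V × Finset V)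
  | [] => []
  | (v, S) :: l => by
      classical
      exact if S.Nonempty then
        (pick ((v, S) :: l), o (pick ((v, S) :: l))) :: (v, S) :: l
      else (v, S) :: l

/-- the history after at most `t` steps -/
noncomputable def nrun (pick : List (V × Finset V) → V) (o : V → Finset V) (v₀ : V) :
    ℕ → List (V × Finset V)
  | 0 => [(v₀, o v₀)]
  | t + 1 => nstep pick o (nrun pick o v₀ t)

theorem nstep_pos {pick : List (V × Finset V) → V} {o : V → Finset V} {v : V} {S : Finset V}
    {l : List (V × Finset V)} (h : S.Nonempty) : nstep pick o ((v, S) :: l) =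
      (pick ((v, S) :: l), o (pick ((v, S) :: l))) :: (v, S) :: l := by
  simp only [nstep, if_pos h]

theorem nstep_neg {pick : List (V × Finset V) → V} {o : V → Finset V} {v : V}
    {l : List (V × Finset V)} : nstep pick o ((v, ∅) :: l) = (v, ∅) :: l := by
  simp [nstep]

/-- the candidates that agree with the history -/
noncomputable def cand (F : Finset (V → Finset V)) (h : List (V × Finset V)) :
    Finset (V → Finset V) := fil F fun o => ∀ e ∈ h, o e.1 = e.2

theorem cand_cons {F : Finset (V → Finset V)} {h : List (V × Finset V)} {v : V}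
    {S : Finset V} : cand F ((v, S) :: h) = fil (cand F h) fun o => o v = S := by
  unfold cand
  ext o
  simp only [mem_fil, List.mem_cons, forall_eq_or_imp]
  tauto

/-- the good moves: a winning move for the candidates, if there is one -/
def GoodMove (N : ℕ) (F : Finset (V → Finset V)) (h : List (V × Finset V)) (v : V) (S : Finset V)
    (u : V) : Prop :=
  u ∈ S ∧ ∃ N', N' + 1 + h.length = N ∧ ∀ S', Win N' (cand F ((u, S') :: (v, S) :: h)) u

open Classical in
/-- the rule that plays winning moves -/
noncomputable def pickOf (d : V) (N : ℕ) (F : Finset (V → Finset V)) :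
    List (V × Finset V) → V
  | [] => d
  | (v, S) :: l =>
      if hg : ∃ u, GoodMove N F l v S u then hg.choose
      else if hS : S.Nonempty then hS.choose else d

theorem pickOf_mem (d : V) (N : ℕ) (F : Finset (V → Finset V)) (v : V) (S : Finset V)
    (l : List (V × Finset V)) (hS : S.Nonempty) : pickOf d N F ((v, S) :: l) ∈ S := by
  simp only [pickOf]
  split_ifs with hg
  · exact hg.choose_spec.1
  · exact hS.choose_spec

/-- **A winning strategy gives a rule.** -/
theorem pickOf_spec (d : V) (N : ℕ) (F : Finset (V → Finset V))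
    (hF : ∀ v S, Win N (cand F [(v, S)]) v) (o : V → Finset V) (ho : o ∈ F) (v₀ : V) :
    ∃ v l, nrun (pickOf d N F) o v₀ N = (v, o v) :: l ∧ o v = ∅ := by
  classical
  set pick := pickOf d N F with hpick
  have inv : ∀ t ≤ N, ∃ v l, nrun pick o v₀ t = (v, o v) :: l ∧
      (o v = ∅ ∨ (l.length = t ∧ o ∈ cand F ((v, o v) :: l) ∧
        Win (N - t) (cand F ((v, o v) :: l)) v)) := by
    intro t
    induction t with
    | zero =>
      intro _
      refine ⟨v₀, [], rfl, Or.inr ⟨rfl, ?_, ?_⟩⟩
      · exact mem_fil.2 ⟨ho, by simp⟩
      · exact hF v₀ (o v₀)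
    | succ t ih =>
      intro ht
      obtain ⟨v, l, hrun, hv⟩ := ih (by omega)
      have hstep : nrun pick o v₀ (t + 1) = nstep pick o ((v, o v) :: l) := by
        show nstep pick o (nrun pick o v₀ t) = _
        rw [hrun]
      rcases hv with hv | ⟨hlen, hmem, hwin⟩
      · refine ⟨v, l, ?_, Or.inl hv⟩
        rw [hstep, hv]
        exact nstep_neg
      · by_cases hv : o v = ∅
        · refine ⟨v, l, ?_, Or.inl hv⟩
          rw [hstep, hv]
          exact nstep_neg
        · have hne : (o v).Nonempty := Finset.nonempty_iff_ne_empty.2 hv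
          obtain ⟨N', hN'⟩ : ∃ N', N - t = N' + 1 := ⟨N - t - 1, by omega⟩
          rw [hN'] at hwin
          have hgood : ∃ u, GoodMove N F l v (o v) u := by
            rcases hwin with h | ⟨u, hu, h⟩
            · exact absurd (h o hmem) hv
            · refine ⟨u, hu o hmem, N', by omega, fun S' => ?_⟩
              rw [cand_cons]
              exact h S'
          have hp : GoodMove N F l v (o v) (pick ((v, o v) :: l)) := by
            have : pick ((v, o v) :: l) = hgood.choose := by
              rw [hpick]
              simp only [pickOf]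
              rw [dif_pos hgood]
            rw [this]
            exact hgood.choose_spec
          obtain ⟨_, N'', hN'', hw⟩ := hp
          refine ⟨pick ((v, o v) :: l), (v, o v) :: l, ?_, Or.inr ⟨by simp [hlen], ?_, ?_⟩⟩
          · rw [hstep]
            exact nstep_pos hne
          · rw [cand_cons]
            exact mem_fil.2 ⟨hmem, rfl⟩
          · have : N - (t + 1) = N'' := by omega
            rw [this]
            exact hw _
  obtain ⟨v, l, hrun, hv⟩ := inv N le_rfl
  refine ⟨v, l, hrun, ?_⟩
  rcases hv with hv | ⟨_, hmem, hwin⟩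
  · exact hv
  · rw [Nat.sub_self] at hwin
    exact hwin o hmem

end Win

section Phase

variable {m n q : ℕ}

theorem Maj.unique (hq : 2 ≤ q) {F : Finset (Nm m → Finset (Nm m))} {v : Nm m}
    {S S' : Finset (Nm m)} (h : Maj q F v S) (h' : Maj q F v S') : S = S' := by
  classical
  by_contra hne
  unfold Maj at h h'
  have hcov : F ⊆ (F.filter fun o => o v ≠ S) ∪ F.filter fun o => o v ≠ S' := by
    intro o ho
    by_cases h1 : o v = S
    · refine Finset.mem_union_right _ (Finset.mem_filter.2 ⟨ho, ?_⟩)
      rw [h1]
      exact hne
    · exact Finset.mem_union_left _ (Finset.mem_filter.2 ⟨ho, h1⟩)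
  have h1 := (Finset.card_le_card hcov).trans (Finset.card_union_le _ _)
  have h2 := Nat.mul_le_mul_left q h1
  have h3 := Nat.mul_le_mul_right F.card hq
  rw [Nat.mul_add] at h2
  omega

/-- one phase after the other -/
theorem win_phase {j : ℕ} (hq : 2 ≤ q) (hj : m < 2 ^ j) (hb : 2 * n + m * (T n j + 2) + 1 ≤ q) :
    ∀ (p : ℕ) (F : Finset (Nm m → Finset (Nm m))) (v : Nm m),
      (∀ o ∈ F, Nonempty (LPLike n o)) → (∃ S, ∀ o ∈ F, o v = S) →
      F.card * (q - 1) ^ p < q ^ p → Win (T n j * p) F v := by
  classical
  intro p
  induction p with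
  | zero =>
    intro F v _ _ hF
    have : F = ∅ := by
      rw [← Finset.card_eq_zero]
      simpa using hF
    subst this
    exact Win.of_base _ (by simp)
  | succ p ihp =>
    intro F v hL hv hF
    rcases F.eq_empty_or_nonempty with rfl | hne
    · exact Win.of_base _ (by simp)
    obtain ⟨u, hu, hut⟩ := exists_end (q := q) hne hL n j ∅ v ∅ (by simp) (by
        intro o _ _ L
        exact L.dim_empty) (Finset.empty_subset _)
      (lt_of_le_of_lt (by simpa using Finset.card_le_univ (Rel q F ∅ (T n j + 1) v)) hj)
      (by simpa using hb)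
    have key : ∀ (r : ℕ) (x : Nm m) (G : Finset (Nm m → Finset (Nm m))), G ⊆ F →
        (∃ S, ∀ o ∈ G, o x = S) → Walk q F ∅ r x u → Win (r + T n j * p) G x := by
      intro r
      induction r with
      | zero =>
        intro x G hG ⟨S, hS⟩ hw
        have hx : u = x := hw
        subst hx
        by_cases hM : Maj q F u S
        · have hg : Good q F u := ⟨S, hM⟩
          have hMS : M q F u = S := (M_spec hg).unique hq hM
          rcases hut with h | h
          · exact absurd hg h
          · refine Win.of_base _ fun o ho => ?_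
            rw [hS o ho, Finset.eq_empty_iff_forall_notMem]
            intro w hwS
            exact h w (by rw [hMS]; exact hwS) (Finset.empty_subset _)
        · refine (ihp G u (fun o ho => hL o (hG ho)) ⟨S, hS⟩ ?_).mono (by omega)
          unfold Maj at hM
          push Not at hM
          have h1 : G.card + (F.filter fun o => o u ≠ S).card ≤ F.card := by
            rw [← Finset.card_union_of_disjoint]
            · exact Finset.card_le_card (Finset.union_subset hG (Finset.filter_subset _ _))
            · rw [Finset.disjoint_left]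
              intro o ho ho'
              exact (Finset.mem_filter.1 ho').2 (hS o ho)
          obtain ⟨r, rfl⟩ : ∃ r, q = r + 1 := ⟨q - 1, by omega⟩
          have h2 : (r + 1) * G.card ≤ r * F.card := by nlinarith
          have h3 : (r + 1) * (G.card * r ^ p) < (r + 1) * (r + 1) ^ p := by
            calc (r + 1) * (G.card * r ^ p) = ((r + 1) * G.card) * r ^ p := by ring
              _ ≤ (r * F.card) * r ^ p := Nat.mul_le_mul_right _ h2
              _ = F.card * r ^ (p + 1) := by ring
              _ < (r + 1) ^ (p + 1) := by simpa using hF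
              _ = (r + 1) * (r + 1) ^ p := by ring
          have := Nat.lt_of_mul_lt_mul_left h3
          simpa using this
      | succ r ihr =>
        intro x G hG ⟨S, hS⟩ hw
        by_cases hM : Maj q F x S
        · have hg : Good q F x := ⟨S, hM⟩
          have hMS : M q F x = S := (M_spec hg).unique hq hM
          rcases hw with hx | ⟨_, w, hwM, _, hw⟩
          · subst hx
            rcases hut with h | h
            · exact absurd hg h
            · refine Win.of_base _ fun o ho => ?_
              rw [hS o ho, Finset.eq_empty_iff_forall_notMem]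
              intro w hwS
              exact h w (by rw [hMS]; exact hwS) (Finset.empty_subset _)
          · rw [show r + 1 + T n j * p = (r + T n j * p) + 1 by ring]
            refine Or.inr ⟨w, fun o ho => by rw [hS o ho, ← hMS]; exact hwM, fun S' => ?_⟩
            exact ihr w _ ((fil_subset _ _).trans hG)
              ⟨S', fun o ho => (mem_fil.1 ho).2⟩ hw
        · refine (ihp G x (fun o ho => hL o (hG ho)) ⟨S, hS⟩ ?_).mono (by omega)
          unfold Maj at hM
          push Not at hM
          have h1 : G.card + (F.filter fun o => o x ≠ S).card ≤ F.card := by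
            rw [← Finset.card_union_of_disjoint]
            · exact Finset.card_le_card (Finset.union_subset hG (Finset.filter_subset _ _))
            · rw [Finset.disjoint_left]
              intro o ho ho'
              exact (Finset.mem_filter.1 ho').2 (hS o ho)
          obtain ⟨r, rfl⟩ : ∃ r, q = r + 1 := ⟨q - 1, by omega⟩
          have h2 : (r + 1) * G.card ≤ r * F.card := by nlinarith
          have h3 : (r + 1) * (G.card * r ^ p) < (r + 1) * (r + 1) ^ p := by
            calc (r + 1) * (G.card * r ^ p) = ((r + 1) * G.card) * r ^ p := by ring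
              _ ≤ (r * F.card) * r ^ p := Nat.mul_le_mul_right _ h2
              _ = F.card * r ^ (p + 1) := by ring
              _ < (r + 1) ^ (p + 1) := by simpa using hF
              _ = (r + 1) * (r + 1) ^ p := by ring
          have := Nat.lt_of_mul_lt_mul_left h3
          simpa using this
    refine (key (T n j) v F (Finset.Subset.refl _) hv hu).mono (le_of_eq ?_)
    ring

theorem two_mul_pow_le {r : ℕ} (hr : 1 ≤ r) : 2 * r ^ r ≤ (r + 1) ^ r := by
  have h0 : (0 : ℝ) < r := by exact_mod_cast hr
  have h1 := one_add_mul_le_pow (a := 1 / (r : ℝ)) (by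
    have : (0 : ℝ) ≤ 1 / r := by positivity
    linarith) r
  rw [mul_one_div_cancel h0.ne'] at h1
  have h2 : (1 + 1 / (r : ℝ)) ^ r * (r : ℝ) ^ r = ((r : ℝ) + 1) ^ r := by
    rw [← mul_pow]
    congr 1
    field_simp
  have h3 : (2 : ℝ) * (r : ℝ) ^ r ≤ ((r : ℝ) + 1) ^ r := by
    rw [← h2]
    exact mul_le_mul_of_nonneg_right (by linarith) (by positivity)
  exact_mod_cast h3

/-- enough phases -/
theorem win_all {j L : ℕ} (hq : 2 ≤ q) (hj : m < 2 ^ j) (hb : 2 * n + m * (T n j + 2) + 1 ≤ q)
    (F : Finset (Nm m → Finset (Nm m))) (hL : ∀ o ∈ F, Nonempty (LPLike n o))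
    (hF : F.card < 2 ^ L) (v : Nm m) (S : Finset (Nm m)) :
    Win (T n j * ((q - 1) * L)) (cand F [(v, S)]) v := by
  classical
  have hsub : cand F [(v, S)] ⊆ F := fil_subset _ _
  refine win_phase hq hj hb _ _ v (fun o ho => hL o (hsub ho)) ⟨S, fun o ho => ?_⟩ ?_
  · have := (mem_fil.1 ho).2 (v, S) (by simp)
    exact this
  · obtain ⟨r, rfl⟩ : ∃ r, q = r + 1 := ⟨q - 1, by omega⟩
    have hr : 1 ≤ r := by omega
    rw [Nat.add_sub_cancel]
    have h1 := (Finset.card_le_card hsub).trans_lt hF
    have h2 : 0 < r ^ (r * L) := by positivity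
    calc (cand F [(v, S)]).card * r ^ (r * L) < 2 ^ L * r ^ (r * L) :=
          Nat.mul_lt_mul_of_pos_right h1 h2
      _ = (2 * r ^ r) ^ L := by rw [mul_pow, ← pow_mul]
      _ ≤ ((r + 1) ^ r) ^ L := Nat.pow_le_pow_left (two_mul_pow_le hr) L
      _ = (r + 1) ^ (r * L) := by rw [← pow_mul]

end Phase

end Pool.Agent.MP4d246d.Blind
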