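import Pool.Agent.Lib.MP_4d246d_lc.Blind.Count
import Pool.Agent.Lib.MP_4d246d_lc.Blind.Game

/-!
# One blind pivot rule with quasi-polynomially many pivots for all linear programs
-/

namespace Pool.Agent.Simplex.Tableau

open Pool.Agent.MP4d246d.Blind

namespace LP

variable {m n : ℕ}

theorem seen_congr (P : LP m n) {x x' : ℕ → Fin n → ℝ} :
    ∀ {t : ℕ}, (∀ i ≤ t, x i = x' i) → P.seen x t = P.seen x' t := by
  intro t
  induction t with
  | zero => intro h; simp only [seen, h 0 le_rfl]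
  | succ t ih =>
    intro h
    simp only [seen]
    rw [h (t + 1) le_rfl, ih fun i hi => h i (by omega)]

theorem seen_head (P : LP m n) (x : ℕ → Fin n → ℝ) (t : ℕ) :
    ∃ l, P.seen x t = (P.tight (x t), P.view (x t)) :: l := by
  cases t with
  | zero => exact ⟨[], rfl⟩
  | succ t => exact ⟨_, rfl⟩

/-- two runs of the same rule agree -/
theorem Run.unique {P : LP m n} {ρ : BlindRule m} {x x' : ℕ → Fin n → ℝ} {k k' : ℕ}
    (h0 : x 0 = x' 0) (h : P.Run ρ x k) (hf : P.Final (x k)) (h' : P.Run ρ x' k') :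
    k' ≤ k ∧ ∀ i ≤ k', x' i = x i := by
  have key : ∀ t, t ≤ k → t ≤ k' → ∀ i ≤ t, x' i = x i := by
    intro t
    induction t with
    | zero =>
      intro _ _ i hi
      rw [Nat.le_zero.1 hi, h0]
    | succ t ih =>
      intro hk hk' i hi
      have hprev := ih (by omega) (by omega)
      rcases Nat.lt_or_ge i (t + 1) with h1 | h1
      · exact hprev i (by omega)
      · have hit : i = t + 1 := by omega
        subst hit
        have h2 := h.rule t hk
        have h3 := h'.rule t hk'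
        rw [P.seen_congr hprev, ← h2] at h3
        exact eq_of_tight (h'.pivot t hk').1.2.1 h3.le
  have hkk : k' ≤ k := by
    by_contra hlt
    push Not at hlt
    have h1 := key k le_rfl hlt.le k le_rfl
    exact h'.go k hlt (by rw [h1]; exact hf)
  exact ⟨hkk, key k' hkk le_rfl⟩

/-- a run on names is a run of the simplex method -/
theorem run_of_nrun {P : LP m n} {ρ : BlindRule m} {x₀ : Fin n → ℝ} (hx₀ : P.Vertex x₀) :
    ∀ t : ℕ, ∃ (k : ℕ) (x : ℕ → Fin n → ℝ), k ≤ t ∧ x 0 = x₀ ∧ P.Vertex (x k) ∧ P.Run ρ x k ∧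
      ((P.Final (x k) ∧ ∃ l, nrun ρ.pick P.nview (P.tight x₀) t = (P.tight (x k), ∅) :: l) ∨
        (k = t ∧ ¬ P.Final (x k) ∧ nrun ρ.pick P.nview (P.tight x₀) t = P.seen x t)) := by
  classical
  intro t
  induction t with
  | zero =>
    refine ⟨0, fun _ => x₀, le_rfl, rfl, hx₀, ⟨fun t ht => absurd ht (Nat.not_lt_zero t),
      fun t ht => absurd ht (Nat.not_lt_zero t), fun t ht => absurd ht (Nat.not_lt_zero t)⟩, ?_⟩
    by_cases hf : P.Final x₀
    · left
      exact ⟨hf, [], by simp only [nrun, nview_final hf]⟩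
    · right
      exact ⟨rfl, hf, by simp only [nrun, seen, nview_tight hx₀ hf]⟩
  | succ t ih =>
    obtain ⟨k, x, hkt, hx0, hxk, hrun, hcase⟩ := ih
    rcases hcase with ⟨hf, l, hl⟩ | ⟨rfl, hf, hl⟩
    · refine ⟨k, x, hkt.trans (Nat.le_succ t), hx0, hxk, hrun, Or.inl ⟨hf, l, ?_⟩⟩
      show nstep ρ.pick P.nview (nrun ρ.pick P.nview (P.tight x₀) t) = _
      rw [hl]
      exact nstep_neg
    · obtain ⟨l, hl'⟩ := P.seen_head x k
      have hne := view_nonempty hxk hf
      have hpick : ρ.pick (P.seen x k) ∈ P.view (x k) := by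
        rw [hl']
        exact ρ.pick_mem _ _ _ hne
      obtain ⟨y, hy, hyt⟩ := mem_view.1 hpick
      set x' : ℕ → Fin n → ℝ := Function.update x (k + 1) y with hx'
      have hold : ∀ i ≤ k, x' i = x i := fun i hi => by
        rw [hx', Function.update_of_ne (by omega)]
      have hnew : x' (k + 1) = y := by rw [hx', Function.update_self]
      have hnr : nrun ρ.pick P.nview (P.tight x₀) (k + 1) =
          (P.tight y, P.nview (P.tight y)) :: P.seen x k := by
        show nstep ρ.pick P.nview (nrun ρ.pick P.nview (P.tight x₀) k) = _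
        rw [hl, hl', nstep_pos hne, ← hl', hyt]
      refine ⟨k + 1, x', le_rfl, (hold 0 (Nat.zero_le _)).trans hx0, by
        rw [hnew]; exact hy.1.2.1, ⟨fun s hs => ?_, fun s hs => ?_, fun s hs => ?_⟩, ?_⟩
      · rcases Nat.lt_or_ge s k with h1 | h1
        · rw [hold s h1.le, hold (s + 1) h1]
          exact hrun.pivot s h1
        · have : s = k := by omega
          subst this
          rw [hold s le_rfl, hnew]
          exact hy
      · rcases Nat.lt_or_ge s k with h1 | h1
        · rw [hold (s + 1) h1, P.seen_congr fun i hi => hold i (by omega)]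
          exact hrun.rule s h1
        · have : s = k := by omega
          subst this
          rw [hnew, P.seen_congr fun i hi => hold i hi]
          exact hyt
      · rcases Nat.lt_or_ge s k with h1 | h1
        · rw [hold s h1.le]
          exact hrun.go s h1
        · have : s = k := by omega
          subst this
          rw [hold s le_rfl]
          exact hf
      · by_cases hfy : P.Final y
        · left
          rw [hnew, hnr]
          exact ⟨hfy, _, by rw [nview_final hfy]⟩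
        · right
          rw [hnew, hnr]
          refine ⟨rfl, hfy, ?_⟩
          simp only [seen]
          rw [hnew, nview_tight hy.1.2.1 hfy, P.seen_congr fun i hi => hold i hi]

/-- the bound `2 ^ s * C(n + s, s)`, `s` the number of binary digits of `m` -/
def pathBound (m n : ℕ) : ℕ := 2 ^ Nat.size m * (n + Nat.size m).choose (Nat.size m)

theorem T_le (j : ℕ) : ∀ d, T d j + 1 ≤ 2 ^ j * (d + j).choose j := by
  induction j with
  | zero =>
    intro d
    cases d with
    | zero => simp [T_zero]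
    | succ d => simp [T_succ_zero]
  | succ j ih =>
    intro d
    induction d with
    | zero =>
      rw [T_zero, Nat.zero_add, Nat.zero_add, Nat.choose_self, mul_one]
      exact Nat.one_le_two_pow
    | succ d ihd =>
      rw [T_succ_succ]
      have h1 := ih (d + 1)
      have h2 : (d + 1 + (j + 1)).choose (j + 1) =
          (d + 1 + j).choose j + (d + 1 + j).choose (j + 1) := by
        rw [show d + 1 + (j + 1) = (d + 1 + j) + 1 by ring, Nat.choose_succ_succ]
      have h3 : d + (j + 1) = d + 1 + j := by ring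
      rw [h3] at ihd
      rw [h2, pow_succ] at *
      nlinarith

theorem le_of_vertex {P : LP m n} {x : Fin n → ℝ} (hx : P.Vertex x) : n ≤ m := by
  have hv := P.vertex_vtx.1 hx
  obtain ⟨r, _, hli⟩ := CI.exists_basis P.A Set.univ (fun q hq => hv.2 q fun l _ => hq l trivial)
  simpa using Fintype.card_le_of_injective r (CI.li_inj hli)

theorem card_fam_lt (hnm : n ≤ m) : (fam m n).card <
    2 ^ ((m * n + (m + n)) * (Nat.size m * (n + 3) + 3) + 1) := by
  set j := Nat.size m with hj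
  have hmj : m + 1 ≤ 2 ^ j := Nat.lt_size_self m
  have hnj : n + 1 ≤ 2 ^ j := by omega
  have h1 : m ^ n ≤ 2 ^ (j * n) := by
    rw [pow_mul]
    exact Nat.pow_le_pow_left (by omega) n
  have h2 : m ^ n * ((m + 1) * (n + 1)) * (n + 1) ≤ 2 ^ (j * n) * (2 ^ j * 2 ^ j) * 2 ^ j :=
    Nat.mul_le_mul (Nat.mul_le_mul h1 (Nat.mul_le_mul hmj hnj)) hnj
  have h3 : 2 ^ (j * (n + 3) + 3) = 8 * (2 ^ (j * n) * (2 ^ j * 2 ^ j) * 2 ^ j) := by
    ring
  have h4 : 1 ≤ 2 ^ (j * n) * (2 ^ j * 2 ^ j) * 2 ^ j := Nat.one_le_iff_ne_zero.2 (by positivity)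
  have h5 : 4 * (m ^ n * ((m + 1) * (n + 1)) * (n + 1)) + 1 ≤ 2 ^ (j * (n + 3) + 3) := by
    omega
  calc (fam m n).card ≤
        (4 * (m ^ n * ((m + 1) * (n + 1)) * (n + 1)) + 1) ^ (m * n + (m + n)) := card_fam
    _ ≤ (2 ^ (j * (n + 3) + 3)) ^ (m * n + (m + n)) := Nat.pow_le_pow_left h5 _
    _ = 2 ^ ((m * n + (m + n)) * (j * (n + 3) + 3)) := by rw [← pow_mul, mul_comm]
    _ < 2 ^ ((m * n + (m + n)) * (j * (n + 3) + 3) + 1) :=
        Nat.pow_lt_pow_right (by norm_num) (Nat.lt_succ_self _)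

theorem bound_le (hnm : n ≤ m) :
    T n (Nat.size m) * ((2 * n + m * (T n (Nat.size m) + 2) + 2 - 1) *
      ((m * n + (m + n)) * (Nat.size m * (n + 3) + 3) + 1)) ≤
    88 * m ^ 2 * n ^ 2 * Nat.size m * pathBound m n ^ 2 := by
  rcases Nat.eq_zero_or_pos n with rfl | hn
  · rw [T_zero, Nat.zero_mul]
    exact Nat.zero_le _
  have hm : 0 < m := by omega
  set j := Nat.size m with hj
  have hj1 : 1 ≤ j := Nat.size_pos.2 hm
  set t := T n j with ht
  have hH : t + 1 ≤ pathBound m n := T_le j n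
  set H := pathBound m n with hHdef
  rw [show 2 * n + m * (t + 2) + 2 - 1 = 2 * n + m * (t + 2) + 1 by omega]
  have h1 : 2 * n + m * (t + 2) + 1 ≤ m * (t + 5) := by nlinarith
  have h2 : t * (m * (t + 5)) ≤ 4 * m * H ^ 2 := by
    have h3 : t * (t + 5) ≤ 4 * H ^ 2 := by
      have h4 : (t + 1) ^ 2 ≤ H ^ 2 := Nat.pow_le_pow_left hH 2
      nlinarith
    calc t * (m * (t + 5)) = m * (t * (t + 5)) := by ring
      _ ≤ m * (4 * H ^ 2) := Nat.mul_le_mul_left m h3
      _ = 4 * m * H ^ 2 := by ring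
  have h5 : m * n + (m + n) ≤ 3 * (m * n) := by nlinarith
  have h6 : j * (n + 3) + 3 ≤ 7 * (j * n) := by nlinarith
  have h7 : (m * n + (m + n)) * (j * (n + 3) + 3) + 1 ≤ 22 * (m * n * (j * n)) := by
    have h8 := Nat.mul_le_mul h5 h6
    have h9 : 1 ≤ m * n * (j * n) := Nat.mul_pos (Nat.mul_pos hm hn) (Nat.mul_pos hj1 hn)
    nlinarith
  calc t * ((2 * n + m * (t + 2) + 1) * ((m * n + (m + n)) * (j * (n + 3) + 3) + 1))
      ≤ t * ((m * (t + 5)) * (22 * (m * n * (j * n)))) :=
        Nat.mul_le_mul_left t (Nat.mul_le_mul h1 h7)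
    _ = (t * (m * (t + 5))) * (22 * (m * n * (j * n))) := by ring
    _ ≤ (4 * m * H ^ 2) * (22 * (m * n * (j * n))) := Nat.mul_le_mul_right _ h2
    _ = 88 * m ^ 2 * n ^ 2 * j * H ^ 2 := by ring

/-- **Main theorem.** -/
theorem main (m n : ℕ) : ∃ ρ : BlindRule m, ∀ (P : LP m n) (x₀ : Fin n → ℝ), P.Vertex x₀ →
    ∃ (k : ℕ) (x : ℕ → Fin n → ℝ),
      k ≤ 88 * m ^ 2 * n ^ 2 * Nat.size m * pathBound m n ^ 2 ∧
      x 0 = x₀ ∧ P.Run ρ x k ∧ P.Final (x k) ∧
      ∀ k' x', x' 0 = x₀ → P.Run ρ x' k' → k' ≤ k ∧ ∀ i ≤ k', x' i = x i := by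
  classical
  by_cases hnm : n ≤ m
  swap
  · refine ⟨⟨pickOf ∅ 0 ∅, pickOf_mem ∅ 0 ∅⟩, fun P x₀ hx₀ => ?_⟩
    exact absurd (le_of_vertex hx₀) hnm
  set j := Nat.size m with hj
  set q := 2 * n + m * (T n j + 2) + 2 with hq
  set L := (m * n + (m + n)) * (j * (n + 3) + 3) + 1 with hL
  set N := T n j * ((q - 1) * L) with hN
  have hwin : ∀ v S, Win N (cand (fam m n) [(v, S)]) v := fun v S =>
    win_all (q := q) (n := n) (j := j) (by omega) (Nat.lt_size_self m) (by omega) (fam m n) (by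
      intro o ho
      obtain ⟨P, rfl⟩ := (Finset.mem_filter.1 ho).2
      exact P.lpLike) (card_fam_lt hnm) v S
  refine ⟨⟨pickOf ∅ N (fam m n), pickOf_mem ∅ N (fam m n)⟩, fun P x₀ hx₀ => ?_⟩
  set ρ : BlindRule m := ⟨pickOf ∅ N (fam m n), pickOf_mem ∅ N (fam m n)⟩ with hρ
  obtain ⟨k, x, hkN, hx0, hxk, hrun, hcase⟩ := run_of_nrun (ρ := ρ) hx₀ N
  have hf : P.Final (x k) := by
    rcases hcase with ⟨hf, _⟩ | ⟨rfl, hf, hseen⟩
    · exact hf
    · exfalso
      obtain ⟨v, l, h1, h2⟩ := pickOf_spec ∅ N (fam m n) hwin P.nview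
        (Finset.mem_filter.2 ⟨Finset.mem_univ _, P, rfl⟩) (P.tight x₀)
      obtain ⟨l', h3⟩ := P.seen_head x N
      have h4 : (v, P.nview v) :: l = (P.tight (x N), P.view (x N)) :: l' := by
        rw [← h3, ← hseen]
        exact h1.symm
      have h5 : P.view (x N) = ∅ := by
        have h6 := (List.cons.inj h4).1
        have h7 := (Prod.ext_iff.1 h6).2
        simp only at h7
        rw [← h7]
        exact h2
      have h8 := view_nonempty hxk hf
      rw [h5] at h8
      exact Finset.not_nonempty_empty h8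
  exact ⟨k, x, hkN.trans (bound_le hnm), hx0, hrun, hf, fun k' x' h0 h' =>
    Run.unique (hx0.trans h0.symm) hrun hf h'⟩

end LP

end Pool.Agent.Simplex.Tableau
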