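import Mathlib

/-!
# Short walks in the majority structure

Names are finite sets of constraints. A structure assigns to each name the names of the improving
neighbours. If most members of a family of structures that come from linear programs agree at the
names that are met, then a short walk leads to an end of the majority structure (the argument of
Kalai and Kleitman, made robust).
-/

namespace Pool.Agent.MP4d246d.Blind

variable {m n : ℕ}

/-- the names of vertices: sets of constraints -/
abbrev Nm (m : ℕ) : Type := Finset (Fin m)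

/-- what is used about a linear program whose vertices have the improving neighbours `o` -/
structure LPLike (n : ℕ) (o : Nm m → Finset (Nm m)) where
  /-- the names of vertices -/
  vert : Nm m → Prop
  /-- the objective -/
  φ : Nm m → ℝ
  /-- the dimension of the face in which the given constraints are tight -/
  dim : Nm m → ℕ
  vert_of : ∀ v, (o v).Nonempty → vert v
  up : ∀ v, ∀ u ∈ o v, vert u ∧ φ v < φ u
  top : ∀ K v, vert v → K ⊆ v → (o v).Nonempty → (∀ u ∈ o v, ¬ K ⊆ u) →
    ∀ u, vert u → K ⊆ u → φ u ≤ φ v
  dim_empty : dim ∅ ≤ n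
  dim_insert : ∀ K v u f, vert v → vert u → K ⊆ v → K ⊆ u → f ∈ v → f ∉ u →
    dim (insert f K) + 1 ≤ dim K
  dim_zero : ∀ K v u, dim K = 0 → vert v → vert u → K ⊆ v → K ⊆ u → φ u = φ v

section

variable (q : ℕ) (F : Finset (Nm m → Finset (Nm m)))

open Classical in
/-- few members of the family deviate from the answer `S` at `v` -/
def Maj (v : Nm m) (S : Finset (Nm m)) : Prop :=
  q * (F.filter fun o => o v ≠ S).card < F.card

/-- there is a majority answer at `v` -/
def Good (v : Nm m) : Prop := ∃ S, Maj q F v S

open Classical in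
/-- the majority answer -/
noncomputable def M (v : Nm m) : Finset (Nm m) :=
  if h : ∃ S, Maj q F v S then h.choose else ∅

/-- a walk with at most `r` steps in the majority structure, in the face `K` -/
def Walk (K : Nm m) : ℕ → Nm m → Nm m → Prop
  | 0, v, u => u = v
  | r + 1, v, u => u = v ∨ (Good q F v ∧ ∃ w ∈ M q F v, K ⊆ w ∧ Walk K r w u)

/-- an end of the majority structure in the face `K`, or a name without majority -/
def Term (K v : Nm m) : Prop := ¬ Good q F v ∨ ∀ u ∈ M q F v, ¬ K ⊆ u

open Classical in
/-- the constraints that are tight at some but not at all of the reached names -/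
noncomputable def Rel (K : Nm m) (r : ℕ) (v : Nm m) : Finset (Fin m) :=
  Finset.univ.filter fun g => (∃ u, Walk q F K r v u ∧ g ∈ u) ∧ ∃ z, Walk q F K r v z ∧ g ∉ z

end

variable {q : ℕ} {F : Finset (Nm m → Finset (Nm m))}

theorem M_spec {v : Nm m} (h : Good q F v) : Maj q F v (M q F v) := by
  classical
  unfold M
  rw [dif_pos (show ∃ S, Maj q F v S from h)]
  exact h.choose_spec

/-- there is a member of the family that agrees with the majority at few good names -/
theorem exists_agree (hF : F.Nonempty) (W : Finset (Nm m)) (hW : ∀ v ∈ W, Good q F v)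
    (hc : W.card ≤ q) : ∃ o ∈ F, ∀ v ∈ W, o v = M q F v := by
  classical
  by_contra hno
  push Not at hno
  rcases W.eq_empty_or_nonempty with rfl | hne
  · obtain ⟨o, ho⟩ := hF
    obtain ⟨v, hv, _⟩ := hno o ho
    simp at hv
  have hcov : F ⊆ W.biUnion fun v => F.filter fun o => o v ≠ M q F v := by
    intro o ho
    obtain ⟨v, hv, hne⟩ := hno o ho
    exact Finset.mem_biUnion.2 ⟨v, hv, Finset.mem_filter.2 ⟨ho, hne⟩⟩
  have h1 := (Finset.card_le_card hcov).trans Finset.card_biUnion_le
  have h2 : q * ∑ v ∈ W, (F.filter fun o => o v ≠ M q F v).card < W.card * F.card := by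
    rw [Finset.mul_sum]
    calc ∑ v ∈ W, q * (F.filter fun o => o v ≠ M q F v).card < ∑ _v ∈ W, F.card :=
          Finset.sum_lt_sum_of_nonempty hne fun v hv => M_spec (hW v hv)
      _ = W.card * F.card := by simp
  have h3 := Nat.mul_le_mul_left q h1
  have h4 := Nat.mul_le_mul_right F.card hc
  omega

theorem Walk.refl (K : Nm m) (r : ℕ) (v : Nm m) : Walk q F K r v v := by
  cases r with
  | zero => rfl
  | succ r => exact Or.inl rfl

theorem Walk.mono {K : Nm m} : ∀ {r r' : ℕ} {v u : Nm m}, r ≤ r' → Walk q F K r v u →
    Walk q F K r' v u := by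
  intro r
  induction r with
  | zero =>
    intro r' v u _ h
    have : u = v := h
    rw [this]
    exact Walk.refl K r' v
  | succ r ih =>
    intro r' v u hr h
    obtain ⟨r'', rfl⟩ : ∃ r'', r' = r'' + 1 := ⟨r' - 1, by omega⟩
    rcases h with h | ⟨h1, w, h2, h3, h4⟩
    · exact Or.inl h
    · exact Or.inr ⟨h1, w, h2, h3, ih (by omega) h4⟩

theorem Walk.face {K K' : Nm m} (hK : K ⊆ K') : ∀ {r : ℕ} {v u : Nm m}, Walk q F K' r v u →
    Walk q F K r v u := by
  intro r
  induction r with
  | zero => intro v u h; exact h
  | succ r ih =>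
    intro v u h
    rcases h with h | ⟨h1, w, h2, h3, h4⟩
    · exact Or.inl h
    · exact Or.inr ⟨h1, w, h2, hK.trans h3, ih h4⟩

theorem Walk.trans {K : Nm m} : ∀ {r r' : ℕ} {v u w : Nm m}, Walk q F K r v u →
    Walk q F K r' u w → Walk q F K (r + r') v w := by
  intro r
  induction r with
  | zero =>
    intro r' v u w h h'
    have : u = v := h
    subst this
    rwa [Nat.zero_add]
  | succ r ih =>
    intro r' v u w h h'
    rcases h with h | ⟨h1, x, h2, h3, h4⟩
    · subst h
      exact Walk.mono (by omega) h'
    · rw [show r + 1 + r' = (r + r') + 1 by omega]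
      exact Or.inr ⟨h1, x, h2, h3, ih h4 h'⟩

theorem Walk.single {K v w : Nm m} (h1 : Good q F v) (h2 : w ∈ M q F v) (h3 : K ⊆ w) :
    Walk q F K 1 v w := Or.inr ⟨h1, w, h2, h3, rfl⟩

theorem Walk.sub {K : Nm m} : ∀ {r : ℕ} {v u : Nm m}, Walk q F K r v u → K ⊆ v → K ⊆ u := by
  intro r
  induction r with
  | zero => intro v u h hv; have : u = v := h; rwa [this]
  | succ r ih =>
    intro v u h hv
    rcases h with h | ⟨_, w, _, h3, h4⟩
    · rwa [h]
    · exact ih h4 h3

/-- a walk is a walk in each structure that agrees with the majority at at most `r` names -/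
theorem Walk.support {K : Nm m} : ∀ {r : ℕ} {v u : Nm m}, Walk q F K r v u →
    ∃ W : Finset (Nm m), W.card ≤ r ∧ (∀ w ∈ W, Good q F w) ∧
      ∀ o, (∀ w ∈ W, o w = M q F w) → ∀ L : LPLike n o, L.vert v → L.vert u ∧ L.φ v ≤ L.φ u := by
  classical
  intro r
  induction r with
  | zero =>
    intro v u h
    have : u = v := h
    subst this
    exact ⟨∅, by simp, by simp, fun o _ L hL => ⟨hL, le_rfl⟩⟩
  | succ r ih =>
    intro v u h
    rcases h with h | ⟨h1, w, h2, _, h4⟩
    · subst h
      exact ⟨∅, by simp, by simp, fun o _ L hL => ⟨hL, le_rfl⟩⟩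
    · obtain ⟨W, hc, hg, hW⟩ := ih h4
      refine ⟨insert v W, (Finset.card_insert_le _ _).trans (by omega), ?_, ?_⟩
      · intro x hx
        rcases Finset.mem_insert.1 hx with rfl | hx
        · exact h1
        · exact hg x hx
      · intro o ho L hL
        have hov := ho v (Finset.mem_insert_self _ _)
        have h5 := L.up v w (by rw [hov]; exact h2)
        have h6 := hW o (fun x hx => ho x (Finset.mem_insert_of_mem hx)) L h5.1
        exact ⟨h6.1, h5.2.le.trans h6.2⟩

theorem mem_Rel {K : Nm m} {r : ℕ} {v : Nm m} {g : Fin m} : g ∈ Rel q F K r v ↔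
    (∃ u, Walk q F K r v u ∧ g ∈ u) ∧ ∃ z, Walk q F K r v z ∧ g ∉ z := by
  classical
  simp [Rel]

theorem Rel.mono {K K' : Nm m} (hK : K ⊆ K') {r r' a : ℕ} {v u : Nm m} (h : Walk q F K a v u)
    (hr : a + r ≤ r') : Rel q F K' r u ⊆ Rel q F K r' v := by
  intro g hg
  obtain ⟨⟨x, hx, hgx⟩, z, hz, hgz⟩ := mem_Rel.1 hg
  exact mem_Rel.2 ⟨⟨x, (h.trans (hx.face hK)).mono hr, hgx⟩, z, (h.trans (hz.face hK)).mono hr, hgz⟩

/-- the length of the walks -/
def T : ℕ → ℕ → ℕ
  | 0 => fun _ => 0
  | d + 1 => fun j => Nat.rec 0 (fun i s => 2 * s + T d (i + 1) + 2) j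

theorem T_zero (j : ℕ) : T 0 j = 0 := rfl

theorem T_succ_zero (d : ℕ) : T (d + 1) 0 = 0 := rfl

theorem T_succ_succ (d j : ℕ) : T (d + 1) (j + 1) = 2 * T (d + 1) j + T d (j + 1) + 2 := rfl

theorem exists_end (hF : F.Nonempty) (hL : ∀ o ∈ F, Nonempty (LPLike n o)) :
    ∀ (d j : ℕ) (K v : Nm m) (W : Finset (Nm m)),
      (∀ w ∈ W, Good q F w) →
      (∀ o ∈ F, (∀ w ∈ W, o w = M q F w) → ∀ L : LPLike n o, L.dim K ≤ d) →
      K ⊆ v → (Rel q F K (T d j + 1) v).card < 2 ^ j →
      W.card + 2 * d + m * (T d j + 2) + 1 ≤ q →
      ∃ u, Walk q F K (T d j) v u ∧ Term q F K u := by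
  classical
  intro d
  induction d with
  | zero =>
    intro j K v W hW hdim hKv _ hq
    refine ⟨v, Walk.refl _ _ _, ?_⟩
    by_contra hterm
    unfold Term at hterm
    push Not at hterm
    obtain ⟨hg, u, hu, hKu⟩ := hterm
    obtain ⟨o, ho, hag⟩ := exists_agree hF (insert v W) (by
      intro x hx
      rcases Finset.mem_insert.1 hx with rfl | hx
      · exact hg
      · exact hW x hx) ((Finset.card_insert_le _ _).trans (by omega))
    obtain ⟨L⟩ := hL o ho
    have h1 := hdim o ho (fun w hw => hag w (Finset.mem_insert_of_mem hw)) L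
    have hov := hag v (Finset.mem_insert_self _ _)
    have h2 := L.up v u (by rw [hov]; exact hu)
    have h3 := L.vert_of v ⟨u, by rw [hov]; exact hu⟩
    have h4 := L.dim_zero K v u (by omega) h3 h2.1 hKv hKu
    linarith [h2.2]
  | succ d ihd =>
    intro j
    induction j with
    | zero =>
      intro K v W hW hdim hKv hR hq
      refine ⟨v, Walk.refl _ _ _, ?_⟩
      by_contra hterm
      unfold Term at hterm
      push Not at hterm
      obtain ⟨hg, u, hu, hKu⟩ := hterm
      obtain ⟨o, ho, hag⟩ := exists_agree hF {v} (by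
        intro x hx
        rw [Finset.mem_singleton.1 hx]
        exact hg) (by rw [Finset.card_singleton]; omega)
      obtain ⟨L⟩ := hL o ho
      have hov := hag v (Finset.mem_singleton_self _)
      have h2 := L.up v u (by rw [hov]; exact hu)
      have hne : u ≠ v := by
        rintro rfl
        exact lt_irrefl _ h2.2
      have hR0 : Rel q F K (T (d + 1) 0 + 1) v = ∅ := by
        rw [← Finset.card_eq_zero]
        simpa using hR
      have hwu : Walk q F K (T (d + 1) 0 + 1) v u := (Walk.single hg hu hKu).mono (by omega)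
      have hwv : Walk q F K (T (d + 1) 0 + 1) v v := Walk.refl _ _ _
      apply hne
      ext g
      constructor
      · intro hgu
        by_contra hgv
        have : g ∈ Rel q F K (T (d + 1) 0 + 1) v := mem_Rel.2 ⟨⟨u, hwu, hgu⟩, v, hwv, hgv⟩
        rw [hR0] at this
        simp at this
      · intro hgv
        by_contra hgu
        have : g ∈ Rel q F K (T (d + 1) 0 + 1) v := mem_Rel.2 ⟨⟨v, hwv, hgv⟩, u, hwu, hgu⟩
        rw [hR0] at this
        simp at this
    | succ j ihj =>
      intro K v W hW hdim hKv hR hq
      set s := T (d + 1) j with hs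
      set T' := T d (j + 1) with hT'
      have hT : T (d + 1) (j + 1) = 2 * s + T' + 2 := rfl
      rw [hT] at hR hq ⊢
      by_contra hno
      push Not at hno
      -- all names that are reached are good and not ends
      have hgood : ∀ u, Walk q F K (2 * s + T' + 2) v u →
          Good q F u ∧ ∃ w ∈ M q F u, K ⊆ w := by
        intro u hu
        have := hno u hu
        unfold Term at this
        push Not at this
        exact this
      have hqs : m * (s + 2) ≤ m * (2 * s + T' + 2 + 2) := Nat.mul_le_mul_left _ (by omega)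
      have hqT : m * (T' + 2) ≤ m * (2 * s + T' + 2 + 2) := Nat.mul_le_mul_left _ (by omega)
      -- small radius: many relevant constraints
      have hbig : ∀ u a, Walk q F K a v u → a + s ≤ 2 * s + T' + 2 →
          2 ^ j ≤ (Rel q F K (s + 1) u).card := by
        intro u a hu ha
        by_contra hlt
        push Not at hlt
        obtain ⟨x, hx, hxt⟩ := ihj K u W hW hdim (hu.sub hKv) hlt (by omega)
        exact hno x ((hu.trans hx).mono ha) hxt
      set R1 := Rel q F K (s + 1) v with hR1
      have hR1c : 2 ^ j ≤ R1.card := hbig v 0 (Walk.refl _ _ _) (by omega)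
      -- the tops of the facets
      have htop : ∀ f ∈ R1, ∃ w w' : Nm m, Walk q F K (s + 1 + T') v w ∧ insert f K ⊆ w ∧
          Good q F w ∧ (∀ u ∈ M q F w, ¬ insert f K ⊆ u) ∧ w' ∈ M q F w ∧ K ⊆ w' := by
        intro f hf
        obtain ⟨⟨u, hu, hfu⟩, z, hz, hfz⟩ := mem_Rel.1 hf
        obtain ⟨hgu, u', hu', hKu'⟩ := hgood u (hu.mono (by omega))
        obtain ⟨hgz, z', hz', hKz'⟩ := hgood z (hz.mono (by omega))
        have hKu := hu.sub hKv
        have hKz := hz.sub hKv
        have hcard : (insert u (insert z W)).card ≤ W.card + 2 :=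
          (Finset.card_insert_le _ _).trans (by
            have := Finset.card_insert_le z W
            omega)
        obtain ⟨w, hw, hwt⟩ := ihd (j + 1) (insert f K) u (insert u (insert z W)) (by
            intro x hx
            rcases Finset.mem_insert.1 hx with rfl | hx
            · exact hgu
            rcases Finset.mem_insert.1 hx with rfl | hx
            · exact hgz
            · exact hW x hx)
          (by
            intro o ho hag L
            have h1 := hdim o ho (fun x hx => hag x
              (Finset.mem_insert_of_mem (Finset.mem_insert_of_mem hx))) L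
            have hou := hag u (Finset.mem_insert_self _ _)
            have hoz := hag z (Finset.mem_insert_of_mem (Finset.mem_insert_self _ _))
            have h2 := L.dim_insert K u z f (L.vert_of u ⟨u', by rw [hou]; exact hu'⟩)
              (L.vert_of z ⟨z', by rw [hoz]; exact hz'⟩) hKu hKz hfu hfz
            omega)
          (Finset.insert_subset hfu hKu)
          (lt_of_le_of_lt (Finset.card_le_card
            (Rel.mono (Finset.subset_insert f K) hu (by omega))) hR)
          (by rw [← hT']; omega)
        have hKw : insert f K ⊆ w := hw.sub (Finset.insert_subset hfu hKu)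
        have hwv : Walk q F K (s + 1 + T') v w := hu.trans (hw.face (Finset.subset_insert f K))
        obtain ⟨hgw, w', hw', hKw'⟩ := hgood w (hwv.mono (by omega))
        rcases hwt with hwt | hwt
        · exact absurd hgw hwt
        · exact ⟨w, w', hwv, hKw, hgw, hwt, hw', hKw'⟩
      choose! w w' hwv hKw hgw hwt hw' hKw' using htop
      -- a relevant constraint of the second kind
      have hnext : ∀ f ∈ R1, ∃ g ∈ R1, ∃ B, Walk q F K (s + 1) (w' f) B ∧ g ∈ B := by
        intro f hf
        have hw1 : Walk q F K (s + 1 + T' + 1) v (w' f) :=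
          (hwv f hf).trans (Walk.single (hgw f hf) (hw' f hf) (hKw' f hf))
        have h1 := hbig (w' f) _ hw1 (by omega)
        have h2 : Rel q F K (s + 1) (w' f) ⊆ Rel q F K (2 * s + T' + 2 + 1) v :=
          Rel.mono (Finset.Subset.refl _) hw1 (by omega)
        have h3 : R1 ⊆ Rel q F K (2 * s + T' + 2 + 1) v :=
          Rel.mono (Finset.Subset.refl _) (Walk.refl K 0 v) (by omega)
        have h4 : ¬ Disjoint R1 (Rel q F K (s + 1) (w' f)) := by
          intro hd
          have h5 := Finset.card_union_of_disjoint hd
          have h6 := Finset.card_le_card (Finset.union_subset h3 h2)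
          rw [pow_succ] at hR
          omega
        obtain ⟨g, hg1, hg2⟩ := Finset.not_disjoint_iff.1 h4
        obtain ⟨⟨B, hB, hgB⟩, _⟩ := mem_Rel.1 hg2
        exact ⟨g, hg1, B, hB, hgB⟩
      choose! g hg B hB hgB using hnext
      -- the supports of the walks
      have hsup := fun f (hf : f ∈ R1) => (hB f hf).support (n := n)
      choose! Z hZc hZg hZ using hsup
      set U : Finset (Nm m) := R1.biUnion fun f => insert (w f) (Z f) with hU
      have hUc : U.card ≤ m * (s + 2) := by
        refine Finset.card_biUnion_le.trans ?_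
        calc ∑ f ∈ R1, (insert (w f) (Z f)).card ≤ ∑ _f ∈ R1, (s + 2) :=
              Finset.sum_le_sum fun f hf => (Finset.card_insert_le _ _).trans (by
                have := hZc f hf
                omega)
          _ = R1.card * (s + 2) := by simp
          _ ≤ m * (s + 2) := Nat.mul_le_mul_right _ (by
              simpa using Finset.card_le_univ R1)
      obtain ⟨o, ho, hag⟩ := exists_agree hF U (by
        intro x hx
        obtain ⟨f, hf, hx⟩ := Finset.mem_biUnion.1 hx
        rcases Finset.mem_insert.1 hx with rfl | hx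
        · exact hgw f hf
        · exact hZg f hf x hx) (by omega)
      obtain ⟨L⟩ := hL o ho
      have how : ∀ f ∈ R1, o (w f) = M q F (w f) := fun f hf =>
        hag _ (Finset.mem_biUnion.2 ⟨f, hf, Finset.mem_insert_self _ _⟩)
      have hne : R1.Nonempty := by
        rw [← Finset.card_pos]
        exact lt_of_lt_of_le (Nat.two_pow_pos j) hR1c
      obtain ⟨f, hf, hmax⟩ := Finset.exists_max_image R1 (fun f => L.φ (w f)) hne
      have h1 := L.up (w f) (w' f) (by rw [how f hf]; exact hw' f hf)
      have h2 := hZ f hf o (fun x hx => hag x (Finset.mem_biUnion.2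
        ⟨f, hf, Finset.mem_insert_of_mem hx⟩)) L h1.1
      have hgf := hg f hf
      have hon := how (g f) hgf
      have h3 : (o (w (g f))).Nonempty := by
        rw [hon]
        exact ⟨w' (g f), hw' (g f) hgf⟩
      have h4 := L.top (insert (g f) K) (w (g f)) (L.vert_of _ h3) (hKw (g f) hgf) h3 (by
        rw [hon]
        exact hwt (g f) hgf) (B f) h2.1 (Finset.insert_subset (hgB f hf)
          ((hB f hf).sub (hKw' f hf)))
      have h5 := hmax (g f) hgf
      linarith [h1.2, h2.2]

end Pool.Agent.MP4d246d.Blind
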