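import Pool.Agent.Lib.MP_4d246d_lc.Blind.Defs
import Pool.Agent.Lib.MP_4d246d_lc.Blind.Path
import Pool.Agent.Lib.MP_4d246d_lc.CI.Ext

/-!
# Geometry of linear programs for the blind rules
-/

namespace Pool.Agent.Simplex.Tableau

open Matrix Pool.Agent.Simplex.CI Pool.Agent.MP4d246d.Blind

namespace LP

variable {m n : ℕ} (P : LP m n)

theorem row_eq (i : Fin m) (x : Fin n → ℝ) : P.row i x = P.A i ⬝ᵥ x := rfl

theorem obj_eq (x : Fin n → ℝ) : P.obj x = P.c ⬝ᵥ x := rfl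

theorem feasible_pol : P.feasible = Pol P.A P.b := rfl

theorem vertex_vtx {x : Fin n → ℝ} : P.Vertex x ↔ Vtx P.A P.b x :=
  ⟨vtx_of_ext, ext_of_vtx⟩

variable {P}

theorem mem_tight {x : Fin n → ℝ} {i : Fin m} : i ∈ P.tight x ↔ P.A i ⬝ᵥ x = P.b i := by
  classical
  simp [tight, row_eq]

theorem mem_view {x : Fin n → ℝ} {T : Name m} :
    T ∈ P.view x ↔ ∃ y, P.Improving x y ∧ P.tight y = T := by
  classical
  simp [view]

/-- the tight constraints determine the vertex -/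
theorem eq_of_tight {x y : Fin n → ℝ} (hx : P.Vertex x) (h : P.tight x ⊆ P.tight y) : x = y := by
  have h1 := (P.vertex_vtx.1 hx).2 (x - y) fun l hl => by
    rw [dotProduct_sub, hl, mem_tight.1 (h (mem_tight.2 hl)), sub_self]
  exact sub_eq_zero.1 h1

/-- an edge has a one-dimensional space of directions -/
theorem Edge.edg {x y : Fin n → ℝ} (h : P.Edge x y) : Edg P.A P.b x y := by
  obtain ⟨hx, hy, hne, hext⟩ := h
  have hx' := P.vertex_vtx.1 hx
  have hy' := P.vertex_vtx.1 hy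
  refine ⟨hx', hy', sub_ne_zero.2 hne.symm, fun q hq => ?_⟩
  set p : Fin n → ℝ := (1 / 2 : ℝ) • x + (1 / 2 : ℝ) • y with hp
  have hpP : p ∈ Pol P.A P.b := by
    intro l
    rw [hp, dotProduct_add, dotProduct_smul, dotProduct_smul, smul_eq_mul, smul_eq_mul]
    have h1 := hx'.1 l
    have h2 := hy'.1 l
    linarith
  have hpq : ∀ l, P.A l ⬝ᵥ p = P.b l → P.A l ⬝ᵥ q = 0 := by
    intro l hl
    rw [hp, dotProduct_add, dotProduct_smul, dotProduct_smul, smul_eq_mul, smul_eq_mul] at hl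
    have h1 := hx'.1 l
    have h2 := hy'.1 l
    apply hq l (by linarith)
    rw [dotProduct_sub]
    linarith
  obtain ⟨e1, he1, h3⟩ := short_step hpP (z := q) fun l hl => (hpq l hl).le
  obtain ⟨e2, he2, h4⟩ := short_step hpP (z := -q) fun l hl => by
    rw [dotProduct_neg, hpq l hl, neg_zero]
  have h7 : p ∈ openSegment ℝ (p + e1 • q) (p + e2 • (-q)) := by
    refine ⟨e2 / (e1 + e2), e1 / (e1 + e2), by positivity, by positivity, ?_, ?_⟩
    · rw [← add_div, add_comm e2, div_self (by positivity)]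
    · ext j
      simp only [Pi.add_apply, Pi.smul_apply, smul_eq_mul, Pi.neg_apply]
      field_simp
      ring
  have hpseg : p ∈ segment ℝ x y := ⟨1 / 2, 1 / 2, by norm_num, by norm_num, by norm_num, rfl⟩
  have h8 := hext.2 h3 h4 hpseg h7
  obtain ⟨s, t, _, _, hst, h9⟩ := h8
  refine ⟨(t - 1 / 2) / e1, ?_⟩
  have h10 : e1 • q = (t - 1 / 2) • (y - x) := by
    have h11 : e1 • q = s • x + t • y - p := by rw [h9]; abel
    rw [h11, hp]
    have hs : s = 1 - t := by linarith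
    rw [hs]
    ext j
    simp only [Pi.add_apply, Pi.smul_apply, smul_eq_mul, Pi.sub_apply]
    ring
  rw [div_eq_inv_mul, mul_smul, ← h10, smul_smul, inv_mul_cancel₀ he1.ne', one_smul]

/-- an unbounded edge has a one-dimensional space of directions -/
theorem ray_dir {x z : Fin n → ℝ} (hx : P.Vertex x)
    (hext : IsExtreme ℝ P.feasible {w | ∃ s : ℝ, 0 ≤ s ∧ w = x + s • z}) :
    (∀ l, P.A l ⬝ᵥ z ≤ 0) ∧
    ∀ q : Fin n → ℝ, (∀ l, P.A l ⬝ᵥ x = P.b l → P.A l ⬝ᵥ z = 0 → P.A l ⬝ᵥ q = 0) →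
        ∃ t : ℝ, q = t • z := by
  have hx' := P.vertex_vtx.1 hx
  have hray : ∀ s : ℝ, 0 ≤ s → x + s • z ∈ Pol P.A P.b := fun s hs =>
    hext.1 ⟨s, hs, rfl⟩
  have hz : ∀ l, P.A l ⬝ᵥ z ≤ 0 := by
    intro l
    by_contra hpos
    push Not at hpos
    have h1 := hray ((P.b l - P.A l ⬝ᵥ x + 1) / (P.A l ⬝ᵥ z)) (by
      have := hx'.1 l
      apply div_nonneg _ hpos.le
      linarith) l
    rw [dotProduct_add, dotProduct_smul, smul_eq_mul, div_mul_cancel₀ _ hpos.ne'] at h1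
    linarith
  refine ⟨hz, fun q hq => ?_⟩
  set p : Fin n → ℝ := x + (1 : ℝ) • z with hp
  have hpP : p ∈ Pol P.A P.b := hray 1 one_pos.le
  have hpq : ∀ l, P.A l ⬝ᵥ p = P.b l → P.A l ⬝ᵥ q = 0 := by
    intro l hl
    rw [hp, dotProduct_add, dotProduct_smul, smul_eq_mul] at hl
    have h1 := hx'.1 l
    have h2 := hz l
    exact hq l (by linarith) (by linarith)
  obtain ⟨e1, he1, h3⟩ := short_step hpP (z := q) fun l hl => (hpq l hl).le
  obtain ⟨e2, he2, h4⟩ := short_step hpP (z := -q) fun l hl => by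
    rw [dotProduct_neg, hpq l hl, neg_zero]
  have h7 : p ∈ openSegment ℝ (p + e1 • q) (p + e2 • (-q)) := by
    refine ⟨e2 / (e1 + e2), e1 / (e1 + e2), by positivity, by positivity, ?_, ?_⟩
    · rw [← add_div, add_comm e2, div_self (by positivity)]
    · ext j
      simp only [Pi.add_apply, Pi.smul_apply, smul_eq_mul, Pi.neg_apply]
      field_simp
      ring
  obtain ⟨s, _, h9⟩ := hext.2 h3 h4 ⟨1, one_pos.le, rfl⟩ h7
  refine ⟨(s - 1) / e1, ?_⟩
  have h10 : e1 • q = (s - 1) • z := by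
    have h11 : e1 • q = (x + s • z) - p := by rw [← h9]; abel
    rw [h11, hp]
    ext j
    simp only [Pi.add_apply, Pi.smul_apply, smul_eq_mul, Pi.sub_apply]
    ring
  rw [div_eq_inv_mul, mul_smul, ← h10, smul_smul, inv_mul_cancel₀ he1.ne', one_smul]

/-- an elementary improving direction in a face -/
theorem exists_dir {x z : Fin n → ℝ} (hx : P.Vertex x) (hz : z ∈ P.feasible) {K : Name m}
    (hK : K ⊆ P.tight x) (hKz : K ⊆ P.tight z) (hlt : P.obj x < P.obj z) :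
    ∃ g : Fin n → ℝ, 0 < P.c ⬝ᵥ g ∧ (∀ l, P.A l ⬝ᵥ x = P.b l → P.A l ⬝ᵥ g ≤ 0) ∧
      (∀ l ∈ K, P.A l ⬝ᵥ g = 0) ∧ ElemAt P.A P.b x g := by
  classical
  have hx' := P.vertex_vtx.1 hx
  -- directions in the cone with positive objective
  let C : Set (Fin n → ℝ) := {g | 0 < P.c ⬝ᵥ g ∧ (∀ l, P.A l ⬝ᵥ x = P.b l → P.A l ⬝ᵥ g ≤ 0) ∧
      ∀ l ∈ K, P.A l ⬝ᵥ g = 0}
  let Z : (Fin n → ℝ) → Finset (Fin m) := fun g => (P.tight x).filter fun l => P.A l ⬝ᵥ g = 0
  have hC : ∃ g, g ∈ C := by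
    refine ⟨z - x, ?_, fun l hl => ?_, fun l hl => ?_⟩
    · rw [dotProduct_sub]
      have : P.c ⬝ᵥ x < P.c ⬝ᵥ z := hlt
      linarith
    · rw [dotProduct_sub, hl]
      have := hz l
      rw [row_eq] at this
      linarith
    · rw [dotProduct_sub, mem_tight.1 (hK hl), mem_tight.1 (hKz hl), sub_self]
  obtain ⟨g, hg, hmax⟩ : ∃ g ∈ C, ∀ g' ∈ C, (Z g').card ≤ (Z g).card := by
    have hfin : ∃ N, ∃ g ∈ C, (Z g).card = N ∧ ∀ g' ∈ C, (Z g').card ≤ N := by
      have hb : ∀ N, (∃ g ∈ C, (Z g).card = N) → N ≤ m := by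
        rintro N ⟨g, _, rfl⟩
        simpa using Finset.card_le_univ (Z g)
      have hP : ∃ N, (∃ g ∈ C, (Z g).card = N) := by
        obtain ⟨g, hg⟩ := hC
        exact ⟨_, g, hg, rfl⟩
      let N := Nat.findGreatest (fun N => ∃ g ∈ C, (Z g).card = N) m
      obtain ⟨N0, hN0⟩ := hP
      have h1 := Nat.findGreatest_spec (P := fun N => ∃ g ∈ C, (Z g).card = N) (hb N0 hN0) hN0
      obtain ⟨g, hg, hgN⟩ := h1
      refine ⟨_, g, hg, hgN, fun g' hg' => ?_⟩
      exact Nat.le_findGreatest (hb _ ⟨g', hg', rfl⟩) ⟨g', hg', rfl⟩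
    obtain ⟨N, g, hg, hgN, h⟩ := hfin
    exact ⟨g, hg, fun g' hg' => by rw [hgN]; exact h g' hg'⟩
  obtain ⟨hg1, hg2, hg3⟩ := hg
  refine ⟨g, hg1, hg2, hg3, fun h0 => by rw [h0, dotProduct_zero] at hg1; exact lt_irrefl _ hg1,
    fun w hw => ?_⟩
  by_contra hnot
  push Not at hnot
  -- the rows that decrease
  set J : Finset (Fin m) := (P.tight x).filter fun l => P.A l ⬝ᵥ g < 0 with hJ
  have hJmem : ∀ l, l ∈ J ↔ P.A l ⬝ᵥ x = P.b l ∧ P.A l ⬝ᵥ g < 0 := fun l => by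
    rw [hJ, Finset.mem_filter, mem_tight]
  have hzero : ∀ l, P.A l ⬝ᵥ x = P.b l → l ∉ J → P.A l ⬝ᵥ g = 0 := by
    intro l hl hlJ
    by_contra hne
    exact hlJ ((hJmem l).2 ⟨hl, lt_of_le_of_ne (hg2 l hl) hne⟩)
  have hJne : J.Nonempty := by
    by_contra hemp
    rw [Finset.not_nonempty_iff_eq_empty] at hemp
    have : g = 0 := hx'.2 g fun l hl => hzero l hl (by rw [hemp]; simp)
    rw [this, dotProduct_zero] at hg1
    exact lt_irrefl _ hg1
  let ρ : Fin m → ℝ := fun l => (P.A l ⬝ᵥ w) / (P.A l ⬝ᵥ g)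
  obtain ⟨i, hiJ, hi⟩ := Finset.exists_min_image J ρ hJne
  obtain ⟨k, hkJ, hk⟩ := Finset.exists_max_image J ρ hJne
  have hρ : ∀ l ∈ J, P.A l ⬝ᵥ w = ρ l * (P.A l ⬝ᵥ g) := fun l hl => by
    have := ((hJmem l).1 hl).2
    show P.A l ⬝ᵥ w = (P.A l ⬝ᵥ w) / (P.A l ⬝ᵥ g) * (P.A l ⬝ᵥ g)
    rw [div_mul_cancel₀ _ this.ne]
  set e1 : Fin n → ℝ := w - ρ i • g with he1
  set e2 : Fin n → ℝ := ρ k • g - w with he2
  have h1 : ∀ l, P.A l ⬝ᵥ x = P.b l → P.A l ⬝ᵥ e1 ≤ 0 := by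
    intro l hl
    rw [he1, dotProduct_sub, dotProduct_smul, smul_eq_mul]
    by_cases hlJ : l ∈ J
    · rw [hρ l hlJ]
      have h2 := hi l hlJ
      have h3 := ((hJmem l).1 hlJ).2
      nlinarith
    · rw [hzero l hl hlJ, hw l hl (hzero l hl hlJ)]
      simp
  have h2 : ∀ l, P.A l ⬝ᵥ x = P.b l → P.A l ⬝ᵥ e2 ≤ 0 := by
    intro l hl
    rw [he2, dotProduct_sub, dotProduct_smul, smul_eq_mul]
    by_cases hlJ : l ∈ J
    · rw [hρ l hlJ]
      have h2 := hk l hlJ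
      have h3 := ((hJmem l).1 hlJ).2
      nlinarith
    · rw [hzero l hl hlJ, hw l hl (hzero l hl hlJ)]
      simp
  have hsum : e1 + e2 = (ρ k - ρ i) • g := by
    rw [he1, he2, sub_smul]
    abel
  -- both have more zeros
  have hZ : ∀ e : Fin n → ℝ, (∀ l, P.A l ⬝ᵥ x = P.b l → P.A l ⬝ᵥ g = 0 → P.A l ⬝ᵥ e = 0) →
      (∀ l, P.A l ⬝ᵥ x = P.b l → P.A l ⬝ᵥ e ≤ 0) → (∃ l ∈ J, P.A l ⬝ᵥ e = 0) → 0 < P.c ⬝ᵥ e →
      False := by
    intro e he0 heneg hel hpos
    have h3 : e ∈ C := ⟨hpos, heneg, fun l hl => he0 l (mem_tight.1 (hK hl)) (hg3 l hl)⟩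
    have h4 := hmax e h3
    obtain ⟨l, hlJ, hl0⟩ := hel
    have h5 : Z g ⊂ Z e := by
      rw [Finset.ssubset_iff_of_subset]
      · refine ⟨l, Finset.mem_filter.2 ⟨mem_tight.2 ((hJmem l).1 hlJ).1, hl0⟩, fun h => ?_⟩
        exact (((hJmem l).1 hlJ).2).ne (Finset.mem_filter.1 h).2
      · intro l' hl'
        obtain ⟨h6, h7⟩ := Finset.mem_filter.1 hl'
        exact Finset.mem_filter.2 ⟨h6, he0 l' (mem_tight.1 h6) h7⟩
    have := Finset.card_lt_card h5
    omega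
  have hz1 : ∀ l, P.A l ⬝ᵥ x = P.b l → P.A l ⬝ᵥ g = 0 → P.A l ⬝ᵥ e1 = 0 := by
    intro l hl hl0
    rw [he1, dotProduct_sub, dotProduct_smul, hl0, hw l hl hl0]
    simp
  have hz2 : ∀ l, P.A l ⬝ᵥ x = P.b l → P.A l ⬝ᵥ g = 0 → P.A l ⬝ᵥ e2 = 0 := by
    intro l hl hl0
    rw [he2, dotProduct_sub, dotProduct_smul, hl0, hw l hl hl0]
    simp
  have hi1 : P.A i ⬝ᵥ e1 = 0 := by
    rw [he1, dotProduct_sub, dotProduct_smul, smul_eq_mul, hρ i hiJ]
    ring
  have hk2 : P.A k ⬝ᵥ e2 = 0 := by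
    rw [he2, dotProduct_sub, dotProduct_smul, smul_eq_mul, hρ k hkJ]
    ring
  have hc1 : P.c ⬝ᵥ e1 ≤ 0 := not_lt.1 fun h => hZ e1 hz1 h1 ⟨i, hiJ, hi1⟩ h
  have hc2 : P.c ⬝ᵥ e2 ≤ 0 := not_lt.1 fun h => hZ e2 hz2 h2 ⟨k, hkJ, hk2⟩ h
  have hc : P.c ⬝ᵥ e1 + P.c ⬝ᵥ e2 = (ρ k - ρ i) * (P.c ⬝ᵥ g) := by
    rw [← dotProduct_add, hsum, dotProduct_smul, smul_eq_mul]
  have hρik : ρ i ≤ ρ k := hi k hkJ
  have heq : ρ k = ρ i := by
    by_contra hne
    have : 0 < ρ k - ρ i := by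
      rcases hρik.lt_or_eq with h | h
      · linarith
      · exact absurd h.symm hne
    nlinarith
  apply hnot (ρ i)
  have : e1 = 0 := hx'.2 e1 fun l hl => by
    have h3 : P.A l ⬝ᵥ e1 + P.A l ⬝ᵥ e2 = 0 := by
      rw [← dotProduct_add, hsum, heq, sub_self, zero_smul, dotProduct_zero]
    have h4 := h1 l hl
    have h5 := h2 l hl
    linarith
  rw [he1] at this
  exact sub_eq_zero.1 this

/-- at a vertex of a face that is not the best point of the face there is an improving edge in the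
face -/
theorem improving_or {x z : Fin n → ℝ} (hx : P.Vertex x) (hz : z ∈ P.feasible) {K : Name m}
    (hK : K ⊆ P.tight x) (hKz : K ⊆ P.tight z) (hlt : P.obj x < P.obj z) :
    P.Unbounded x ∨ ∃ y, P.Improving x y ∧ K ⊆ P.tight y := by
  obtain ⟨g, hg1, hg2, hg3, hg4⟩ := exists_dir hx hz hK hKz hlt
  rcases edge_end (P.vertex_vtx.1 hx) hg2 hg4 with h | ⟨t, ht, hE⟩
  · left
    exact ⟨hx, g, hg1, ray_extreme (P.vertex_vtx.1 hx) hg1 h hg4.2⟩
  · right
    refine ⟨x + t • g, ⟨⟨hx, P.vertex_vtx.2 hE.vtx', ?_, hE.extreme⟩, ?_⟩, ?_⟩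
    · intro h
      apply hE.ne
      rw [← h, sub_self]
    · rw [obj_eq, obj_eq, dotProduct_add, dotProduct_smul, smul_eq_mul]
      have := mul_pos ht hg1
      linarith
    · intro l hl
      rw [mem_tight, dotProduct_add, dotProduct_smul, hg3 l hl, mem_tight.1 (hK hl)]
      simp

/-! ### Linear programs as structures on names -/

variable (P)

open Classical in
/-- the improving neighbours of the vertex with the name `T`, if the method does not stop there -/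
noncomputable def nview (T : Name m) : Finset (Name m) :=
  Finset.univ.filter fun T' => ∃ x, P.Vertex x ∧ ¬ P.Final x ∧ P.tight x = T ∧ T' ∈ P.view x

variable {P}

theorem mem_nview {T T' : Name m} : T' ∈ P.nview T ↔
    ∃ x, P.Vertex x ∧ ¬ P.Final x ∧ P.tight x = T ∧ T' ∈ P.view x := by
  classical
  simp [nview]

theorem nview_tight {x : Fin n → ℝ} (hx : P.Vertex x) (h : ¬ P.Final x) :
    P.nview (P.tight x) = P.view x := by
  ext T
  rw [mem_nview]
  constructor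
  · rintro ⟨y, hy, _, hyx, hT⟩
    rwa [eq_of_tight hy hyx.le] at hT
  · intro hT
    exact ⟨x, hx, h, rfl, hT⟩

theorem nview_final {x : Fin n → ℝ} (h : P.Final x) : P.nview (P.tight x) = ∅ := by
  rw [Finset.eq_empty_iff_forall_notMem]
  intro T hT
  obtain ⟨y, hy, hyf, hyx, _⟩ := mem_nview.1 hT
  rw [eq_of_tight hy hyx.le] at hyf
  exact hyf h

theorem view_nonempty {x : Fin n → ℝ} (hx : P.Vertex x) (h : ¬ P.Final x) :
    (P.view x).Nonempty := by
  have h1 : ¬ P.Optimal x := fun ho => h ⟨hx, Or.inl ho⟩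
  have h2 : ¬ P.Unbounded x := fun hu => h ⟨hx, Or.inr hu⟩
  unfold Optimal at h1
  push Not at h1
  obtain ⟨z, hz, hlt⟩ := h1 (P.vertex_vtx.1 hx).1
  rcases improving_or hx hz (Finset.empty_subset _) (Finset.empty_subset _) hlt with h3 | ⟨y, hy, _⟩
  · exact absurd h3 h2
  · exact ⟨_, mem_view.2 ⟨y, hy, rfl⟩⟩

/-- the directions in which the given constraints do not change -/
def dirs (P : LP m n) (K : Name m) : Submodule ℝ (Fin n → ℝ) where
  carrier := {y | ∀ l ∈ K, P.A l ⬝ᵥ y = 0}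
  add_mem' := by
    intro a b ha hb l hl
    rw [dotProduct_add, ha l hl, hb l hl, add_zero]
  zero_mem' := by
    intro l _
    exact dotProduct_zero _
  smul_mem' := by
    intro r a ha l hl
    rw [dotProduct_smul, ha l hl, smul_zero]

open Classical in
/-- the objective value of a name -/
noncomputable def val (P : LP m n) (T : Name m) : ℝ :=
  if h : ∃ x, P.Vertex x ∧ P.tight x = T then P.obj h.choose else 0

theorem val_tight {x : Fin n → ℝ} (hx : P.Vertex x) : P.val (P.tight x) = P.obj x := by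
  classical
  have h : ∃ y, P.Vertex y ∧ P.tight y = P.tight x := ⟨x, hx, rfl⟩
  unfold val
  rw [dif_pos h, eq_of_tight h.choose_spec.1 h.choose_spec.2.le]

theorem lpLike (P : LP m n) : Nonempty (LPLike n P.nview) := by
  classical
  refine ⟨{
    vert := fun T => ∃ x, P.Vertex x ∧ P.tight x = T
    φ := P.val
    dim := fun K => Module.finrank ℝ (P.dirs K)
    vert_of := ?_
    up := ?_
    top := ?_
    dim_empty := ?_
    dim_insert := ?_
    dim_zero := ?_ }⟩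
  · rintro v ⟨u, hu⟩
    obtain ⟨x, hx, _, hxv, _⟩ := mem_nview.1 hu
    exact ⟨x, hx, hxv⟩
  · intro v u hu
    obtain ⟨x, hx, _, rfl, hu'⟩ := mem_nview.1 hu
    obtain ⟨y, hy, rfl⟩ := mem_view.1 hu'
    refine ⟨⟨y, hy.1.2.1, rfl⟩, ?_⟩
    rw [val_tight hx, val_tight hy.1.2.1]
    exact hy.2
  · rintro K v ⟨x, hx, rfl⟩ hK ⟨u₀, hu₀⟩ hno u ⟨y, hy, rfl⟩ hKy
    rw [val_tight hx, val_tight hy]
    by_contra hlt
    push Not at hlt
    obtain ⟨x', hx', hf, hxx, _⟩ := mem_nview.1 hu₀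
    rw [eq_of_tight hx' hxx.le] at hf
    rcases improving_or hx hy.1 hK hKy hlt with h | ⟨w, hw, hKw⟩
    · exact hf ⟨hx, Or.inr h⟩
    · exact hno (P.tight w) (mem_nview.2 ⟨x, hx, hf, rfl, mem_view.2 ⟨w, hw, rfl⟩⟩) hKw
  · simpa using Submodule.finrank_le (P.dirs ∅)
  · rintro K v u f ⟨x, hx, rfl⟩ ⟨y, hy, rfl⟩ hK hKy hf hfy
    apply Nat.succ_le_of_lt
    apply Submodule.finrank_lt_finrank_of_lt
    have hle : P.dirs (insert f K) ≤ P.dirs K := fun z hz l hl =>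
      hz l (Finset.mem_insert_of_mem hl)
    refine lt_of_le_of_ne hle fun heq => ?_
    have h1 : y - x ∈ P.dirs K := fun l hl => by
      rw [dotProduct_sub, mem_tight.1 (hK hl), mem_tight.1 (hKy hl), sub_self]
    rw [← heq] at h1
    have h2 := h1 f (Finset.mem_insert_self _ _)
    rw [dotProduct_sub, mem_tight.1 hf] at h2
    exact hfy (mem_tight.2 (by linarith))
  · rintro K v u h0 ⟨x, hx, rfl⟩ ⟨y, hy, rfl⟩ hK hKy
    have h1 : y - x ∈ P.dirs K := fun l hl => by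
      rw [dotProduct_sub, mem_tight.1 (hK hl), mem_tight.1 (hKy hl), sub_self]
    rw [Submodule.finrank_eq_zero.1 h0, Submodule.mem_bot] at h1
    rw [sub_eq_zero.1 h1]

end LP

end Pool.Agent.Simplex.Tableau
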