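import Pool.Agent.Lib.MP_4d246d_lc.Blind.Geo
import Pool.Agent.Lib.MP_4d246d_lc.CI.Basis

/-!
# The signs of some determinants determine the improving neighbours
-/

namespace Pool.Agent.Simplex.Tableau

open Matrix Pool.Agent.Simplex.CI Pool.Agent.MP4d246d.Blind

namespace LP

variable {m n : ℕ}

/-- the rows `r` -/
def B (P : LP m n) (r : Fin n → Fin m) : Matrix (Fin n) (Fin n) ℝ := Matrix.of fun k => P.A (r k)

/-- the determinant of the rows `r` -/
noncomputable def D (P : LP m n) (r : Fin n → Fin m) : ℝ := (P.B r).det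

/-- the determinant of the rows `r`, the `k`-th one replaced by `u` -/
noncomputable def E (P : LP m n) (r : Fin n → Fin m) (k : Fin n) (u : Fin n → ℝ) : ℝ :=
  ((P.B r).updateRow k u).det

/-- the slack of the constraint `l` at the intersection point of the constraints `r`, times the
determinant -/
noncomputable def S (P : LP m n) (r : Fin n → Fin m) (l : Fin m) : ℝ :=
  P.b l * P.D r - ∑ k, P.b (r k) * P.E r k (P.A l)

theorem cramer_id (P : LP m n) (r : Fin n → Fin m) (u x : Fin n → ℝ) :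
    P.D r * (u ⬝ᵥ x) = ∑ k, P.E r k u * (P.A (r k) ⬝ᵥ x) := by
  have h1 : (P.B r)ᵀ *ᵥ (cramer (P.B r)ᵀ u) = (P.B r)ᵀ.det • u := mulVec_cramer _ _
  have h2 : (cramer (P.B r)ᵀ u ᵥ* P.B r) = (P.B r).det • u := by
    rw [← Matrix.mulVec_transpose, h1, det_transpose]
  have h3 : ((P.B r).det • u) ⬝ᵥ x = cramer (P.B r)ᵀ u ⬝ᵥ (P.B r *ᵥ x) := by
    rw [← h2, Matrix.dotProduct_mulVec]
  rw [smul_dotProduct, smul_eq_mul] at h3
  rw [D, h3]
  refine Finset.sum_congr rfl fun k _ => ?_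
  rw [cramer_transpose_apply]
  rfl

theorem slack_id (P : LP m n) {r : Fin n → Fin m} {x : Fin n → ℝ}
    (hx : ∀ k, P.A (r k) ⬝ᵥ x = P.b (r k)) (l : Fin m) :
    P.D r * (P.b l - P.A l ⬝ᵥ x) = P.S r l := by
  rw [mul_sub, cramer_id, S, mul_comm]
  congr 1
  refine Finset.sum_congr rfl fun k _ => ?_
  rw [hx k, mul_comm]

theorem dir_id (P : LP m n) {r : Fin n → Fin m} {k : Fin n} {g : Fin n → ℝ}
    (hg : ∀ j, j ≠ k → P.A (r j) ⬝ᵥ g = 0) (u : Fin n → ℝ) :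
    P.D r * (u ⬝ᵥ g) = P.E r k u * (P.A (r k) ⬝ᵥ g) := by
  rw [cramer_id]
  refine Finset.sum_eq_single k (fun j _ hj => ?_) (by simp)
  rw [hg j hj, mul_zero]

theorem D_ne {P : LP m n} {r : Fin n → Fin m} :
    P.D r ≠ 0 ↔ LinearIndependent ℝ (fun k => P.A (r k)) := by
  have h1 := Matrix.linearIndependent_rows_iff_isUnit (A := P.B r)
  rw [Matrix.isUnit_iff_isUnit_det, isUnit_iff_ne_zero] at h1
  exact h1.symm

theorem eq_zero_of_rows {P : LP m n} {r : Fin n → Fin m} (hr : P.D r ≠ 0) {q : Fin n → ℝ}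
    (hq : ∀ k, P.A (r k) ⬝ᵥ q = 0) : q = 0 := basis_inj (D_ne.1 hr) hq

theorem exists_sol {P : LP m n} {r : Fin n → Fin m} (hr : P.D r ≠ 0) (t : Fin n → ℝ) :
    ∃ x : Fin n → ℝ, ∀ k, P.A (r k) ⬝ᵥ x = t k := by
  have h1 : IsUnit (P.B r).det := isUnit_iff_ne_zero.2 hr
  refine ⟨(P.B r)⁻¹ *ᵥ t, fun k => ?_⟩
  have h2 : P.B r *ᵥ ((P.B r)⁻¹ *ᵥ t) = t := by
    rw [Matrix.mulVec_mulVec, Matrix.mul_nonsing_inv _ h1, Matrix.one_mulVec]
  exact congrFun h2 k

/-- the relevant signs of two linear programs agree -/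
structure Same (P P' : LP m n) : Prop where
  d : ∀ r, SignType.sign (P.D r) = SignType.sign (P'.D r)
  s : ∀ r l, SignType.sign (P.S r l) = SignType.sign (P'.S r l)
  a : ∀ r k l, SignType.sign (P.E r k (P.A l)) = SignType.sign (P'.E r k (P'.A l))
  c : ∀ r k, SignType.sign (P.E r k P.c) = SignType.sign (P'.E r k P'.c)

theorem Same.symm {P P' : LP m n} (h : Same P P') : Same P' P :=
  ⟨fun r => (h.d r).symm, fun r l => (h.s r l).symm, fun r k l => (h.a r k l).symm,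
    fun r k => (h.c r k).symm⟩

theorem sign_cancel {a b c a' b' c' : ℝ} (ha : a ≠ 0) (hs : SignType.sign a = SignType.sign a')
    (h : a * b = c) (h' : a' * b' = c') (hc : SignType.sign c = SignType.sign c') :
    SignType.sign b = SignType.sign b' := by
  rw [← h, ← h', sign_mul, sign_mul, ← hs] at hc
  rcases lt_or_gt_of_ne ha with h1 | h1
  · rw [sign_neg h1] at hc
    simpa using hc
  · rw [sign_pos h1] at hc
    simpa using hc

theorem ne_of_sign {a a' : ℝ} (ha : a ≠ 0) (hs : SignType.sign a = SignType.sign a') :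
    a' ≠ 0 := by
  intro h
  rw [h, sign_zero, sign_eq_zero_iff] at hs
  exact ha hs

/-- vertices correspond to each other -/
theorem Same.vertex {P P' : LP m n} (h : Same P P') {x : Fin n → ℝ} (hx : P.Vertex x) :
    ∃ x', P'.Vertex x' ∧ P'.tight x' = P.tight x := by
  have hv := P.vertex_vtx.1 hx
  obtain ⟨r, hr, hli⟩ := exists_basis P.A {l | P.A l ⬝ᵥ x = P.b l} (fun q hq => hv.2 q hq)
  have hD : P.D r ≠ 0 := D_ne.2 hli
  have hD' : P'.D r ≠ 0 := ne_of_sign hD (h.d r)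
  obtain ⟨x', hx'⟩ := exists_sol hD' (fun k => P'.b (r k))
  have hs : ∀ l, SignType.sign (P.b l - P.A l ⬝ᵥ x) = SignType.sign (P'.b l - P'.A l ⬝ᵥ x') :=
    fun l => sign_cancel hD (h.d r) (P.slack_id hr l) (P'.slack_id hx' l) (h.s r l)
  have hfeas : x' ∈ Pol P'.A P'.b := by
    intro l
    have h1 : 0 ≤ P.b l - P.A l ⬝ᵥ x := by
      have := hv.1 l
      linarith
    have h2 : 0 ≤ P'.b l - P'.A l ⬝ᵥ x' := by
      rw [← sign_nonneg_iff, ← hs l, sign_nonneg_iff]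
      exact h1
    linarith
  refine ⟨x', P'.vertex_vtx.2 ⟨hfeas, fun q hq => ?_⟩, ?_⟩
  · exact eq_zero_of_rows hD' fun k => hq (r k) (hx' k)
  · ext l
    rw [mem_tight, mem_tight]
    have h1 : P'.A l ⬝ᵥ x' = P'.b l ↔ SignType.sign (P'.b l - P'.A l ⬝ᵥ x') = 0 := by
      rw [sign_eq_zero_iff, sub_eq_zero, eq_comm]
    have h2 : P.A l ⬝ᵥ x = P.b l ↔ SignType.sign (P.b l - P.A l ⬝ᵥ x) = 0 := by
      rw [sign_eq_zero_iff, sub_eq_zero, eq_comm]
    rw [h1, h2, hs l]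

/-- a basis adapted to a direction -/
theorem exists_adapted {P : LP m n} {x g : Fin n → ℝ} (hx : P.Vertex x) (hg : g ≠ 0)
    (hle : ∀ l, P.A l ⬝ᵥ x = P.b l → P.A l ⬝ᵥ g ≤ 0)
    (hone : ∀ q : Fin n → ℝ, (∀ l, P.A l ⬝ᵥ x = P.b l → P.A l ⬝ᵥ g = 0 → P.A l ⬝ᵥ q = 0) →
      ∃ t : ℝ, q = t • g) :
    ∃ (r : Fin n → Fin m) (k : Fin n), P.D r ≠ 0 ∧ (∀ j, P.A (r j) ⬝ᵥ x = P.b (r j)) ∧
      (∀ j, j ≠ k → P.A (r j) ⬝ᵥ g = 0) ∧ P.A (r k) ⬝ᵥ g < 0 := by
  have hv := P.vertex_vtx.1 hx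
  obtain ⟨l₀, hl₀, hneg⟩ : ∃ l, P.A l ⬝ᵥ x = P.b l ∧ P.A l ⬝ᵥ g < 0 := by
    by_contra hno
    push Not at hno
    exact hg (hv.2 g fun l hl => le_antisymm (hle l hl) (hno l hl))
  obtain ⟨r, hr, hli⟩ := exists_basis P.A
    {l | P.A l ⬝ᵥ x = P.b l ∧ (P.A l ⬝ᵥ g = 0 ∨ l = l₀)} (fun q hq => by
      obtain ⟨t, rfl⟩ := hone q fun l hl h0 => hq l ⟨hl, Or.inl h0⟩
      have h1 := hq l₀ ⟨hl₀, Or.inr rfl⟩
      rw [dotProduct_smul, smul_eq_mul] at h1
      rcases mul_eq_zero.1 h1 with h2 | h2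
      · rw [h2, zero_smul]
      · exact absurd h2 hneg.ne)
  have hD : P.D r ≠ 0 := D_ne.2 hli
  obtain ⟨k, hk⟩ : ∃ k, r k = l₀ := by
    by_contra hno
    push Not at hno
    exact hg (eq_zero_of_rows hD fun k => (hr k).2.resolve_right (hno k))
  refine ⟨r, k, hD, fun j => (hr j).1, fun j hj => ?_, by rw [hk]; exact hneg⟩
  refine (hr j).2.resolve_right fun h => hj ?_
  exact li_inj hli (h.trans hk.symm)

/-- improving edges correspond to each other -/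
theorem Same.improving {P P' : LP m n} (h : Same P P') {x y x' y' : Fin n → ℝ}
    (hxy : P.Improving x y) (hx' : P'.Vertex x') (hy' : P'.Vertex y')
    (hxx : P'.tight x' = P.tight x) (hyy : P'.tight y' = P.tight y) : P'.Improving x' y' := by
  have hE := Edge.edg hxy.1
  have hx := hxy.1.1
  have hc : 0 < P.c ⬝ᵥ (y - x) := by
    have : P.c ⬝ᵥ x < P.c ⬝ᵥ y := hxy.2
    rw [dotProduct_sub]
    linarith
  obtain ⟨r, k, hD, hrx, hr0, hrk⟩ := exists_adapted hx hE.ne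
    (fun l hl => tight_le hE.vtx'.1 hl) hE.one
  have hD' : P'.D r ≠ 0 := ne_of_sign hD (h.d r)
  have hrx' : ∀ j, P'.A (r j) ⬝ᵥ x' = P'.b (r j) := fun j => by
    have : r j ∈ P'.tight x' := by rw [hxx]; exact mem_tight.2 (hrx j)
    exact mem_tight.1 this
  have hr0' : ∀ j, j ≠ k → P'.A (r j) ⬝ᵥ (y' - x') = 0 := by
    intro j hj
    have h1 := hr0 j hj
    rw [dotProduct_sub, hrx j] at h1
    have : r j ∈ P'.tight y' := by rw [hyy]; exact mem_tight.2 (by linarith)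
    rw [dotProduct_sub, hrx' j, mem_tight.1 this, sub_self]
  have hrk' : P'.A (r k) ⬝ᵥ (y' - x') < 0 := by
    have h1 : r k ∉ P'.tight y' := by
      rw [hyy, mem_tight]
      intro h2
      rw [dotProduct_sub, h2, hrx k, sub_self] at hrk
      exact lt_irrefl _ hrk
    rw [mem_tight] at h1
    have h2 := (P'.vertex_vtx.1 hy').1 (r k)
    have h3 := lt_of_le_of_ne h2 h1
    rw [dotProduct_sub, hrx' k]
    linarith
  have hc' : 0 < P'.c ⬝ᵥ (y' - x') := by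
    have h1 := P.dir_id hr0 P.c
    have h2 := P'.dir_id hr0' P'.c
    have h3 : SignType.sign (P.c ⬝ᵥ (y - x)) = SignType.sign (P'.c ⬝ᵥ (y' - x')) := by
      refine sign_cancel hD (h.d r) h1 h2 ?_
      rw [sign_mul, sign_mul, sign_neg hrk, sign_neg hrk', h.c r k]
    rw [sign_pos hc] at h3
    exact sign_eq_one_iff.1 h3.symm
  have hne : y' - x' ≠ 0 := by
    intro h0
    rw [h0, dotProduct_zero] at hc'
    exact lt_irrefl _ hc'
  have hE' : Edg P'.A P'.b x' y' := by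
    refine ⟨P'.vertex_vtx.1 hx', P'.vertex_vtx.1 hy', hne, fun q hq => ?_⟩
    refine ⟨(P'.A (r k) ⬝ᵥ q) / (P'.A (r k) ⬝ᵥ (y' - x')), ?_⟩
    rw [← sub_eq_zero]
    refine eq_zero_of_rows hD' fun j => ?_
    rw [dotProduct_sub, dotProduct_smul, smul_eq_mul]
    by_cases hj : j = k
    · rw [hj, div_mul_cancel₀ _ hrk'.ne, sub_self]
    · rw [hr0' j hj, hq (r j) (hrx' j) (hr0' j hj)]
      simp
  refine ⟨⟨hx', hy', fun h0 => hne ?_, hE'.extreme⟩, ?_⟩
  · rw [← h0, sub_self]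
  · rw [obj_eq, obj_eq]
    rw [dotProduct_sub] at hc'
    linarith

/-- unbounded improving edges correspond to each other -/
theorem Same.unbounded {P P' : LP m n} (h : Same P P') {x x' : Fin n → ℝ}
    (hu : P.Unbounded x) (hx' : P'.Vertex x') (hxx : P'.tight x' = P.tight x) :
    P'.Unbounded x' := by
  obtain ⟨hx, z, hz, hext⟩ := hu
  obtain ⟨hz0, hone⟩ := ray_dir hx hext
  have hzc : 0 < P.c ⬝ᵥ z := hz
  have hzne : z ≠ 0 := by
    intro h0
    rw [h0, dotProduct_zero] at hzc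
    exact lt_irrefl _ hzc
  obtain ⟨r, k, hD, hrx, hr0, hrk⟩ := exists_adapted hx hzne (fun l _ => hz0 l) hone
  have hD' : P'.D r ≠ 0 := ne_of_sign hD (h.d r)
  obtain ⟨z', hz'⟩ := exists_sol hD' (fun j => if j = k then -1 else 0)
  have hrx' : ∀ j, P'.A (r j) ⬝ᵥ x' = P'.b (r j) := fun j => by
    have : r j ∈ P'.tight x' := by rw [hxx]; exact mem_tight.2 (hrx j)
    exact mem_tight.1 this
  have hr0' : ∀ j, j ≠ k → P'.A (r j) ⬝ᵥ z' = 0 := fun j hj => by rw [hz' j, if_neg hj]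
  have hrk' : P'.A (r k) ⬝ᵥ z' < 0 := by rw [hz' k, if_pos rfl]; norm_num
  have hsc : SignType.sign (P.c ⬝ᵥ z) = SignType.sign (P'.c ⬝ᵥ z') := by
    refine sign_cancel hD (h.d r) (P.dir_id hr0 P.c) (P'.dir_id hr0' P'.c) ?_
    rw [sign_mul, sign_mul, sign_neg hrk, sign_neg hrk', h.c r k]
  have hsl : ∀ l, SignType.sign (P.A l ⬝ᵥ z) = SignType.sign (P'.A l ⬝ᵥ z') := by
    intro l
    refine sign_cancel hD (h.d r) (P.dir_id hr0 (P.A l)) (P'.dir_id hr0' (P'.A l)) ?_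
    rw [sign_mul, sign_mul, sign_neg hrk, sign_neg hrk', h.a r k l]
  have hc' : 0 < P'.c ⬝ᵥ z' := by
    rw [sign_pos hzc] at hsc
    exact sign_eq_one_iff.1 hsc.symm
  have hl' : ∀ l, P'.A l ⬝ᵥ z' ≤ 0 := by
    intro l
    rw [← sign_nonpos_iff, ← hsl l, sign_nonpos_iff]
    exact hz0 l
  refine ⟨hx', z', hc', ray_extreme (P'.vertex_vtx.1 hx') hc' hl' fun q hq => ?_⟩
  refine ⟨(P'.A (r k) ⬝ᵥ q) / (P'.A (r k) ⬝ᵥ z'), ?_⟩
  rw [← sub_eq_zero]
  refine eq_zero_of_rows hD' fun j => ?_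
  rw [dotProduct_sub, dotProduct_smul, smul_eq_mul]
  by_cases hj : j = k
  · rw [hj, div_mul_cancel₀ _ hrk'.ne, sub_self]
  · rw [hr0' j hj, hq (r j) (hrx' j) (hr0' j hj)]
    simp

theorem Same.final {P P' : LP m n} (h : Same P P') {x x' : Fin n → ℝ}
    (hf : P.Final x) (hx' : P'.Vertex x') (hxx : P'.tight x' = P.tight x) : P'.Final x' := by
  by_contra hnf
  obtain ⟨hx, hf⟩ := hf
  rcases hf with ho | hu
  · obtain ⟨T, hT⟩ := view_nonempty hx' hnf
    obtain ⟨y', hy', _⟩ := mem_view.1 hT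
    obtain ⟨y, hy, hyy⟩ := h.symm.vertex hy'.1.2.1
    have h1 := h.symm.improving hy' hx hy hxx.symm hyy
    have h2 := ho.2 y (P.vertex_vtx.1 hy).1
    exact absurd h1.2 (not_lt.2 h2)
  · exact hnf ⟨hx', Or.inr (h.unbounded hu hx' hxx)⟩

theorem Same.nview_le {P P' : LP m n} (h : Same P P') (T : Name m) :
    P.nview T ⊆ P'.nview T := by
  intro U hU
  obtain ⟨x, hx, hf, rfl, hU'⟩ := mem_nview.1 hU
  obtain ⟨y, hy, rfl⟩ := mem_view.1 hU'
  obtain ⟨x', hx', hxx⟩ := h.vertex hx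
  obtain ⟨y', hy', hyy⟩ := h.vertex hy.1.2.1
  refine mem_nview.2 ⟨x', hx', fun hf' => hf (h.symm.final hf' hx hxx.symm), hxx, ?_⟩
  exact mem_view.2 ⟨y', h.improving hy hx' hy' hxx hyy, hyy⟩

/-- the signs determine the structure -/
theorem Same.nview_eq {P P' : LP m n} (h : Same P P') : P.nview = P'.nview := by
  funext T
  exact Finset.Subset.antisymm (h.nview_le T) (h.symm.nview_le T)

end LP

end Pool.Agent.Simplex.Tableau
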